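import Pool.Agent.VHG.Thin

/-!
# The group of a deterministic finite tile set is automatic
-/

set_option autoImplicit false
set_option linter.unusedSectionVars false

namespace Pool.Agent.VHG

section

open Classical

variable {T V H : Type} (S : Tiles T V H) (hS : S.Det)

/-- the automaton which reads a word from left to right and remembers the last letter -/
noncomputable def Tiles.dfa : DFA ((V ⊕ H) × Bool) (Option (Option (Ltr V H))) where
  step s a := match s with
    | none => none
    | some none => some (some (toL a))
    | some (some y) => if (S.sys hS).Bad (toL a) y then none else some (some (toL a))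
  start := some none
  accept := {s | s ≠ none}

lemma dfa_eval (w : List ((V ⊕ H) × Bool)) : (S.dfa hS).eval w =
    if (S.sys hS).NF (w.map toL).reverse then some ((w.map toL).reverse).head? else none := by
  induction w using List.reverseRecOn with
  | nil => simp [DFA.eval, DFA.evalFrom, Tiles.dfa, (S.sys hS).nf_nil]
  | append_singleton w a ih =>
    rw [DFA.eval_append_singleton, ih]
    simp only [List.map_append, List.map_cons, List.map_nil, List.reverse_append, List.reverse_cons,
      List.reverse_nil, List.nil_append, List.singleton_append]
    generalize (w.map toL).reverse = r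
    rcases r with _ | ⟨y, r⟩
    · simp [Tiles.dfa, (S.sys hS).nf_nil, (S.sys hS).nf_single]
    · by_cases h : (S.sys hS).NF (y :: r)
      · by_cases hb : (S.sys hS).Bad (toL a) y
        · have h2 : ¬ (S.sys hS).NF (toL a :: y :: r) := fun h3 =>
            ((S.sys hS).nf_cons2.1 h3).1 hb
          simp [Tiles.dfa, h, hb, h2]
        · have h2 : (S.sys hS).NF (toL a :: y :: r) := (S.sys hS).nf_cons2.2 ⟨hb, h⟩
          simp [Tiles.dfa, h, hb, h2]
      · have h2 : ¬ (S.sys hS).NF (toL a :: y :: r) := fun h3 => h (((S.sys hS).nf_cons2.1 h3).2)
        simp [Tiles.dfa, h, h2]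

/-- the language of normal forms -/
def Tiles.lang : Language ((V ⊕ H) × Bool) := {w | (S.sys hS).NF (w.map toL).reverse}

lemma mem_lang (w : List ((V ⊕ H) × Bool)) : w ∈ S.lang hS ↔ (S.sys hS).NF (w.map toL).reverse :=
  Iff.rfl

lemma lang_regular [Finite V] [Finite H] : (S.lang hS).IsRegular := by
  have := Fintype.ofFinite (Option (Option (Ltr V H)))
  refine ⟨_, this, S.dfa hS, ?_⟩
  ext w
  rw [DFA.mem_accepts, dfa_eval, mem_lang]
  by_cases h : (S.sys hS).NF (w.map toL).reverse <;> simp [h, Tiles.dfa]

/-- prefix of length `t` of a word written from right to left -/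
def pre (t : ℕ) {α : Type} (w : List α) : List α := w.drop (w.length - t)

lemma pre_of_le {t : ℕ} {α : Type} {w : List α} (h : w.length ≤ t) : pre t w = w := by
  simp [pre, h]

lemma pre_cons {t : ℕ} {α : Type} {x : α} {w : List α} (h : t ≤ w.length) :
    pre t (x :: w) = pre t w := by
  unfold pre
  rw [List.length_cons, show w.length + 1 - t = (w.length - t) + 1 by omega, List.drop_succ_cons]

/-- distance -/
noncomputable def Tiles.d (g h : Grp S) : ℕ := S.len hS (g⁻¹ * h)

lemma d_self (g : Grp S) : S.d hS g g = 0 := by simp [Tiles.d, len_one]

lemma d_symm (g h : Grp S) : S.d hS g h = S.d hS h g := len_inv_mul_comm S hS g h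

lemma d_letter (g : Grp S) (x : Ltr V H) : S.d hS g (g * S.lv x) = 1 := by
  unfold Tiles.d
  rw [inv_mul_cancel_left, len_lv]

lemma d_tri (g h k : Grp S) : S.d hS g k ≤ S.d hS g h + S.d hS h k := by
  unfold Tiles.d
  have := len_mul_le S hS (g⁻¹ * h) (h⁻¹ * k)
  have e : g⁻¹ * h * (h⁻¹ * k) = g⁻¹ * k := by group
  rwa [e] at this

lemma pre_cons_near (t : ℕ) (x : Ltr V H) (w : List (Ltr V H)) :
    S.d hS (S.ev (pre t w)) (S.ev (pre t (x :: w))) ≤ 1 := by
  rcases Nat.lt_or_ge w.length t with h | h
  · rw [pre_of_le (by omega), pre_of_le (by simpa using h)]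
    exact (d_letter S hS (S.ev w) x).le
  · rw [pre_cons h, d_self]; omega

lemma fellow (t : ℕ) : ∀ (w : List (Ltr V H)) (v : V × Bool),
    S.d hS (S.ev (pre t w)) (S.ev (pre t ((S.sys hS).mulB v w))) ≤ 2 := by
  intro w
  induction w with
  | nil =>
    intro v
    exact (pre_cons_near S hS t (Sum.inr v) []).trans (by omega)
  | cons y w ih =>
    intro v
    cases y with
    | inr u =>
      by_cases hu : u = (S.sys hS).ib v
      · simp only [SqSys.mulB, hu, if_true]
        rw [d_symm]
        exact (pre_cons_near S hS t _ w).trans (by omega)
      · simp only [SqSys.mulB, hu, if_false]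
        exact (pre_cons_near S hS t _ _).trans (by omega)
    | inl h =>
      rcases hs : (S.sys hS).sq h v with _ | ⟨v', h'⟩
      · rw [(S.sys hS).mulB_none hs]
        exact (pre_cons_near S hS t _ _).trans (by omega)
      · rw [(S.sys hS).mulB_some hs]
        have i1 := ih v'
        have ev1 := ev_mulB S hS w v'
        have len1 := (S.sys hS).length_mulB w v'
        have hrel : S.ev w * val S.gh h * val S.gv v = S.ev w * val S.gv v' * val S.gh h' := by
          rw [mul_assoc, mul_assoc, ((S.sys_sq hS).1 hs).rel]
        revert i1 ev1 len1
        generalize (S.sys hS).mulB v' w = z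
        intro i1 ev1 len1
        have near1 : S.d hS (S.ev w) (S.ev (Sum.inl h :: w)) = 1 := d_letter S hS (S.ev w) (Sum.inl h)
        have near2 : S.d hS (S.ev z) (S.ev (Sum.inl h' :: z)) = 1 := d_letter S hS (S.ev z) (Sum.inl h')
        have near3 : S.d hS (S.ev (Sum.inl h :: w)) (S.ev (Sum.inl h' :: z)) = 1 := by
          have e : S.ev (Sum.inl h' :: z) = S.ev (Sum.inl h :: w) * S.lv (Sum.inr v) := by
            show S.ev z * val S.gh h' = (S.ev w * val S.gh h) * val S.gv v
            rw [ev1, hrel]
          rw [e]
          exact d_letter S hS _ _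
        rcases Nat.lt_or_ge w.length t with h1 | h1
        · rw [pre_of_le (w := Sum.inl h :: w) (by simpa using h1)]
          rcases Nat.lt_or_ge z.length t with h2 | h2
          · rw [pre_of_le (w := Sum.inl h' :: z) (by simpa using h2)]
            omega
          · have h3 : z.length = t := by omega
            rw [pre_cons h2, pre_of_le h3.le]
            have := d_tri S hS (S.ev (Sum.inl h :: w)) (S.ev (Sum.inl h' :: z)) (S.ev z)
            rw [d_symm S hS (S.ev (Sum.inl h' :: z)) (S.ev z)] at this
            omega
        · rw [pre_cons h1]
          rcases Nat.lt_or_ge z.length t with h2 | h2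
          · rw [pre_of_le (w := Sum.inl h' :: z) (by simpa using h2)]
            have h3 : w.length = t := by omega
            rw [pre_of_le h3.le]
            have := d_tri S hS (S.ev w) (S.ev (Sum.inl h :: w)) (S.ev (Sum.inl h' :: z))
            omega
          · rw [pre_cons h2]; exact i1

lemma wval_take (u : List ((V ⊕ H) × Bool)) (t : ℕ) :
    wval S.gen (u.take t) = S.ev (pre t (u.map toL).reverse) := by
  rw [wval_gen, pre, ← pv_reverse, List.length_reverse, List.length_map]
  congr 1
  rw [List.drop_reverse, List.reverse_reverse, List.length_map, ← List.map_take]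
  congr 1
  rcases Nat.lt_or_ge t u.length with h | h
  · rw [show u.length - (u.length - t) = t by omega]
  · rw [show u.length - (u.length - t) = u.length by omega, List.take_of_length_le h,
      List.take_length]

include hS in
/-- **Theorem** : the group of a finite four way deterministic tile set is automatic -/
theorem automatic [Finite V] [Finite H] : IsAutomaticWrt S.gen := by
  refine ⟨S.lang hS, lang_regular S hS, ?_, 2, ?_⟩
  · intro g
    refine ⟨(S.nf hS g).1.reverse.map ofL, ?_, ?_⟩
    · rw [mem_lang, List.map_map]
      have : (toL ∘ ofL : Ltr V H → Ltr V H) = id := by funext x; simp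
      rw [this, List.map_id, List.reverse_reverse]
      exact (S.nf hS g).2
    · rw [wval_gen, List.map_map]
      have : (toL ∘ ofL : Ltr V H → Ltr V H) = id := by funext x; simp
      rw [this, List.map_id, pv_reverse, ev_nf]
  · intro u hu v hv huv t
    rw [mem_lang] at hu hv
    rw [wdist_eq S hS, wval_take, wval_take]
    have eu : wval S.gen u = S.ev (u.map toL).reverse := by
      rw [wval_gen, ← pv_reverse, List.reverse_reverse]
    have ev : wval S.gen v = S.ev (v.map toL).reverse := by
      rw [wval_gen, ← pv_reverse, List.reverse_reverse]
    rw [eu, ev] at huv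
    revert huv hu hv
    generalize (u.map toL).reverse = u'
    generalize (v.map toL).reverse = v'
    intro hu hv huv
    have nu := nf_ev S hS u' hu
    have nv := nf_ev S hS v' hv
    show S.d hS _ _ ≤ 2
    rcases huv with h | ⟨i, h⟩
    · have e : S.ev v' = S.ev u' := by
        rw [inv_mul_eq_one] at h; exact h.symm
      rw [e, nu] at nv
      have : u' = v' := congrArg Subtype.val nv
      rw [this, d_self]; omega
    · have e : S.ev v' = S.ev u' * S.gen i := by rw [← h]; group
      rcases i with v | a
      · have e2 : S.ev v' = S.ev u' * S.lv (Sum.inr (v, true)) := e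
        rw [e2, nf_mul, nu] at nv
        have e3 : (S.sys hS).mulB (v, true) u' = v' := congrArg Subtype.val nv
        rw [← e3]
        exact fellow S hS t u' (v, true)
      · have e2 : S.ev v' = S.ev u' * S.lv (Sum.inl (a, true)) := e
        rw [e2, nf_mul, nu] at nv
        have e3 : (S.sys hS).mulA (a, true) u' = v' := congrArg Subtype.val nv
        rw [← e3]
        -- one letter is added or deleted at the end
        rcases u' with _ | ⟨y, w⟩
        · exact (pre_cons_near S hS t _ _).trans (by omega)
        · cases y with
          | inl k =>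
            by_cases hk : k = (S.sys hS).ia (a, true)
            · simp only [SqSys.mulA, hk, if_true]
              rw [d_symm]
              exact (pre_cons_near S hS t _ w).trans (by omega)
            · simp only [SqSys.mulA, hk, if_false]
              exact (pre_cons_near S hS t _ _).trans (by omega)
          | inr k => exact (pre_cons_near S hS t _ _).trans (by omega)

end

end Pool.Agent.VHG
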