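import Pool.Agent.VHG.Thin

/-!
# Compactness: if there is no folded tiling of the plane, the folded patches are bounded
-/

set_option autoImplicit false
set_option linter.unusedSectionVars false

namespace Pool.Agent.VHG

section

open Classical Filter

lemma ultra_fin {α : Type} [Finite α] (U : Ultrafilter ℕ) (f : ℕ → α) :
    ∃ a, ∀ᶠ n in (U : Filter ℕ), f n = a := by
  obtain ⟨a, ha⟩ := Ultrafilter.eq_pure_of_finite (U.map f)
  refine ⟨a, ?_⟩
  have h1 : ({a} : Set α) ∈ (U.map f) := by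
    rw [ha]; exact Set.mem_singleton a
  exact h1

variable {T V H : Type} (S : Tiles T V H)

theorem folded_of_patches [Finite T] (h : ∀ N, ∃ n, N ≤ n ∧ ∃ F ex ey, IsFoldedPatch S n F ex ey) :
    ∃ F ex ey, IsFolded S F ex ey := by
  choose n hn F ex ey hF using h
  let U : Ultrafilter ℕ := Filter.hyperfilter ℕ
  have hU : ∀ N : ℕ, ∀ᶠ k in (U : Filter ℕ), N ≤ k := by
    intro N
    have h1 : ∀ᶠ k in (Filter.cofinite : Filter ℕ), N ≤ k := by
      rw [Nat.cofinite_eq_atTop]; exact Filter.eventually_ge_atTop N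
    exact Filter.hyperfilter_le_cofinite h1
  -- the centre of the box
  let c : ℕ → ℤ := fun k => (n k : ℤ) / 2
  choose F' hF' using fun i j : ℤ => ultra_fin U (fun k => F k (i + c k).toNat (j + c k).toNat)
  choose ex' hex' using fun i : ℤ => ultra_fin U (fun k => ex k (i + c k).toNat)
  choose ey' hey' using fun i : ℤ => ultra_fin U (fun k => ey k (i + c k).toNat)
  have big : ∀ i : ℤ, ∀ᶠ k in (U : Filter ℕ), 0 ≤ i + c k ∧ (i + 1 + c k).toNat = (i + c k).toNat + 1 ∧
      (i + c k).toNat + 1 < n k := by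
    intro i
    filter_upwards [hU (2 * i.natAbs + 6)] with k hk
    have := hn k
    simp only [c]
    omega
  have main : ∀ i j : ℤ, ∃ k : ℕ, ∃ a b : ℕ, a + 1 < n k ∧ b + 1 < n k ∧ F k a b = F' i j ∧
      F k (a + 1) b = F' (i + 1) j ∧ F k a (b + 1) = F' i (j + 1) ∧ ex k a = ex' i ∧
      ex k (a + 1) = ex' (i + 1) ∧ ey k b = ey' j ∧ ey k (b + 1) = ey' (j + 1) := by
    intro i j
    have ev := (big i).and ((big j).and ((hF' i j).and ((hF' (i + 1) j).and ((hF' i (j + 1)).and
      ((hex' i).and ((hex' (i + 1)).and ((hey' j).and (hey' (j + 1)))))))))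
    obtain ⟨k, ⟨_, i1, i2⟩, ⟨_, j1, j2⟩, f1, f2, f3, x1, x2, y1, y2⟩ := ev.exists
    rw [i1] at f2 x2
    rw [j1] at f3 y2
    exact ⟨k, _, _, i2, j2, f1, f2, f3, x1, x2, y1, y2⟩
  refine ⟨F', ex', ey', ?_, ?_, ?_, ?_⟩
  · intro i j
    obtain ⟨k, a, b, ha, hb, f1, f2, f3, x1, x2, y1, y2⟩ := main i j
    have := (hF k).h a b ha (by omega)
    rwa [f1, f2, x1, x2] at this
  · intro i j
    obtain ⟨k, a, b, ha, hb, f1, f2, f3, x1, x2, y1, y2⟩ := main i j
    have := (hF k).v a b (by omega) hb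
    rwa [f1, f3, y1, y2] at this
  · intro i j
    obtain ⟨k, a, b, ha, hb, f1, f2, f3, x1, x2, y1, y2⟩ := main i j
    have := (hF k).hf a b ha (by omega)
    rwa [f1, f2, x1, x2] at this
  · intro i j
    obtain ⟨k, a, b, ha, hb, f1, f2, f3, x1, x2, y1, y2⟩ := main i j
    have := (hF k).vf a b (by omega) hb
    rwa [f1, f3, y1, y2] at this

/-- **Theorem** : a four way deterministic tile set without folded tilings of the plane gives a
word-hyperbolic group -/
theorem hyperbolic_of_noFolded [Finite T] (hS : S.Det) (h : ¬ ∃ F ex ey, IsFolded S F ex ey) :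
    IsHyperbolicWrt S.gen := by
  have h1 : ∃ N, S.Bdd N := by
    by_contra hc
    apply h
    apply folded_of_patches S
    intro N
    by_contra hN
    apply hc
    refine ⟨N, fun n hn hF => hN ⟨n, hn, hF⟩⟩
  obtain ⟨N, hN⟩ := h1
  exact hyperbolic_of_bdd S hS hN

end

end Pool.Agent.VHG
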