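import Pool.Agent.VHG.Thin

/-!
# Arbitrarily large patches: the group is not hyperbolic
-/

set_option autoImplicit false
set_option linter.unusedSectionVars false

namespace Pool.Agent.VHG

section

open Classical

variable {T V H : Type} (S : Tiles T V H) (hS : S.Det)

/-- the map to `ℤ²` -/
noncomputable def Tiles.chi : Grp S →* Multiplicative ℤ × Multiplicative ℤ :=
  PresentedGroup.toGroup (f := Sum.elim (fun _ => (1, Multiplicative.ofAdd 1))
    (fun _ => (Multiplicative.ofAdd 1, 1))) (by
    rintro _ ⟨t, rfl⟩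
    simp only [map_mul, map_inv, FreeGroup.lift_apply_of, Sum.elim_inl, Sum.elim_inr]
    rw [mul_inv_eq_one]
    exact mul_comm _ _)

/-- horizontal coordinate -/
noncomputable def Tiles.cx (g : Grp S) : ℤ := (S.chi g).1.toAdd
/-- vertical coordinate -/
noncomputable def Tiles.cy (g : Grp S) : ℤ := (S.chi g).2.toAdd

lemma cx_mul (g k : Grp S) : S.cx (g * k) = S.cx g + S.cx k := by simp [Tiles.cx]
lemma cy_mul (g k : Grp S) : S.cy (g * k) = S.cy g + S.cy k := by simp [Tiles.cy]
lemma cx_inv (g : Grp S) : S.cx g⁻¹ = - S.cx g := by simp [Tiles.cx]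
lemma cy_inv (g : Grp S) : S.cy g⁻¹ = - S.cy g := by simp [Tiles.cy]
lemma cx_one : S.cx 1 = 0 := by simp [Tiles.cx]
lemma cy_one : S.cy 1 = 0 := by simp [Tiles.cy]

lemma cx_gh (h : H) : S.cx (S.gh h) = 1 := by
  simp [Tiles.cx, Tiles.chi, Tiles.gh]
lemma cy_gh (h : H) : S.cy (S.gh h) = 0 := by
  simp [Tiles.cy, Tiles.chi, Tiles.gh]
lemma cx_gv (v : V) : S.cx (S.gv v) = 0 := by
  simp [Tiles.cx, Tiles.chi, Tiles.gv]
lemma cy_gv (v : V) : S.cy (S.gv v) = 1 := by
  simp [Tiles.cy, Tiles.chi, Tiles.gv]

lemma c_le_one (x : Ltr V H) : |S.cx (S.lv x)| + |S.cy (S.lv x)| ≤ 1 := by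
  rcases x with ⟨h, b⟩ | ⟨v, b⟩ <;> cases b <;>
    simp [Tiles.lv, val, cx_inv, cy_inv, cx_gh, cy_gh, cx_gv, cy_gv]

lemma c_le_ev (w : List (Ltr V H)) : |S.cx (S.ev w)| + |S.cy (S.ev w)| ≤ w.length := by
  induction w with
  | nil => simp [Tiles.ev, cx_one, cy_one]
  | cons x w ih =>
    show |S.cx (S.ev w * S.lv x)| + |S.cy (S.ev w * S.lv x)| ≤ _
    rw [cx_mul, cy_mul]
    have := c_le_one S x
    have h1 := abs_add_le (S.cx (S.ev w)) (S.cx (S.lv x))
    have h2 := abs_add_le (S.cy (S.ev w)) (S.cy (S.lv x))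
    simp only [List.length_cons]
    push_cast
    linarith

lemma c_le_len (g : Grp S) : |S.cx g| + |S.cy g| ≤ S.len hS g := by
  have := c_le_ev S (S.nf hS g).1
  rw [ev_nf] at this
  exact this

/-- a path with steps of length at most one whose ends are at distance at least `n` is geodesic -/
lemma geod_of_steps {p : ℕ → Grp S} {n : ℕ} (h1 : ∀ i, i < n → S.len hS ((p i)⁻¹ * p (i + 1)) ≤ 1)
    (h2 : n ≤ S.len hS ((p 0)⁻¹ * p n)) : IsGeod S.gen (p 0) (p n) n p := by
  have up : ∀ d i, i + d ≤ n → S.len hS ((p i)⁻¹ * p (i + d)) ≤ d := by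
    intro d
    induction d with
    | zero => intro i _; simp [len_one]
    | succ d ih =>
      intro i hi
      have h3 := ih i (by omega)
      have h4 := h1 (i + d) (by omega)
      have h5 := len_mul_le S hS ((p i)⁻¹ * p (i + d)) ((p (i + d))⁻¹ * p (i + d + 1))
      have e : (p i)⁻¹ * p (i + d) * ((p (i + d))⁻¹ * p (i + d + 1)) = (p i)⁻¹ * p (i + (d + 1)) := by
        rw [← add_assoc]; group
      rw [e] at h5
      omega
  refine ⟨rfl, rfl, ?_⟩
  intro i j hij hj
  rw [wdist_eq S hS]
  have h3 := up (j - i) i (by omega)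
  have h4 := up i 0 (by omega)
  have h5 := up (n - j) j (by omega)
  rw [show i + (j - i) = j by omega] at h3
  rw [show 0 + i = i by omega] at h4
  rw [show j + (n - j) = n by omega] at h5
  have h6 := len_mul_le S hS ((p 0)⁻¹ * p i) ((p i)⁻¹ * p j)
  have e1 : (p 0)⁻¹ * p i * ((p i)⁻¹ * p j) = (p 0)⁻¹ * p j := by group
  rw [e1] at h6
  have h7 := len_mul_le S hS ((p 0)⁻¹ * p j) ((p j)⁻¹ * p n)
  have e2 : (p 0)⁻¹ * p j * ((p j)⁻¹ * p n) = (p 0)⁻¹ * p n := by group
  rw [e2] at h7
  omega

/-- position of a vertex of a patch -/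
def Tiles.pos (F : ℕ → ℕ → T) (i j : ℕ) : Grp S :=
  ((List.range i).map fun k => S.gh (S.B (F k 0))).prod *
    ((List.range j).map fun k => S.gv (S.L (F i k))).prod

lemma pos_up (F : ℕ → ℕ → T) (i j : ℕ) : S.pos F i (j + 1) = S.pos F i j * S.gv (S.L (F i j)) := by
  simp [Tiles.pos, List.range_succ, mul_assoc]

lemma pos_right {F : ℕ → ℕ → T} {n : ℕ}
    (h1 : ∀ i j, i + 1 < n + 1 → j < n + 1 → S.R (F i j) = S.L (F (i + 1) j))
    (h2 : ∀ i j, i < n + 1 → j + 1 < n + 1 → S.U (F i j) = S.B (F i (j + 1))) (i : ℕ) (hi : i < n) :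
    ∀ j, j ≤ n → S.pos F (i + 1) j = S.pos F i j * S.gh (S.B (F i j)) := by
  intro j
  induction j with
  | zero => intro _; simp [Tiles.pos, List.range_succ]
  | succ j ih =>
    intro hj
    rw [pos_up, pos_up, ih (by omega), ← h1 i j (by omega) (by omega),
      ← h2 i j (by omega) (by omega), mul_assoc, mul_assoc, rel_base]

lemma cx_pos (F : ℕ → ℕ → T) (i j : ℕ) : S.cx (S.pos F i j) = i := by
  have h1 : ∀ m, S.cx ((List.range m).map fun k => S.gh (S.B (F k 0))).prod = m := by
    intro m
    induction m with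
    | zero => simp [cx_one]
    | succ m ih => rw [List.range_succ, List.map_append, List.prod_append, cx_mul, ih]; simp [cx_gh]
  have h2 : ∀ m, S.cx ((List.range m).map fun k => S.gv (S.L (F i k))).prod = 0 := by
    intro m
    induction m with
    | zero => simp [cx_one]
    | succ m ih => rw [List.range_succ, List.map_append, List.prod_append, cx_mul, ih]; simp [cx_gv]
  rw [Tiles.pos, cx_mul, h1, h2, add_zero]

lemma cy_pos (F : ℕ → ℕ → T) (i j : ℕ) : S.cy (S.pos F i j) = j := by
  have h1 : ∀ m, S.cy ((List.range m).map fun k => S.gh (S.B (F k 0))).prod = 0 := by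
    intro m
    induction m with
    | zero => simp [cy_one]
    | succ m ih => rw [List.range_succ, List.map_append, List.prod_append, cy_mul, ih]; simp [cy_gh]
  have h2 : ∀ m, S.cy ((List.range m).map fun k => S.gv (S.L (F i k))).prod = m := by
    intro m
    induction m with
    | zero => simp [cy_one]
    | succ m ih => rw [List.range_succ, List.map_append, List.prod_append, cy_mul, ih]; simp [cy_gv]
  rw [Tiles.pos, cy_mul, h1, h2, zero_add]

lemma len_gv_inv (g : Grp S) (v : V) : S.len hS (g⁻¹ * (g * S.gv v)) ≤ 1 := by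
  rw [inv_mul_cancel_left]
  exact (len_lv S hS (Sum.inr (v, true))).le

lemma len_gh_inv (g : Grp S) (h : H) : S.len hS (g⁻¹ * (g * S.gh h)) ≤ 1 := by
  rw [inv_mul_cancel_left]
  exact (len_lv S hS (Sum.inl (h, true))).le

lemma len_gv_inv' (g : Grp S) (v : V) : S.len hS ((g * S.gv v)⁻¹ * g) ≤ 1 := by
  rw [len_inv_mul_comm]; exact len_gv_inv S hS g v

include hS in
/-- a tile set with arbitrarily large patches gives a group which is not hyperbolic -/
theorem not_hyperbolic (hP : HasPatches S) : ¬ IsHyperbolicWrt S.gen := by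
  rintro ⟨δ, hδ⟩
  obtain ⟨F, h1, h2⟩ := hP (δ + 1 + 1)
  set n := δ + 1 with hn
  -- two geodesics from `(0, n)` to `(n, 0)`
  set p : ℕ → Grp S := fun t => S.pos F (t - n) (n - t) with hp
  set q : ℕ → Grp S := fun t => S.pos F (min t n) (min n (2 * n - t)) with hq
  have R := fun i hi j hj => pos_right S h1 h2 i hi j hj
  have p0 : p 0 = S.pos F 0 n := by simp only [hp]; congr 1; omega
  have p2n : p (2 * n) = S.pos F n 0 := by simp only [hp]; congr 1 <;> omega
  have pn : p n = S.pos F 0 0 := by simp only [hp]; congr 1 <;> omega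
  have q0 : q 0 = S.pos F 0 n := by simp only [hq]; congr 1 <;> omega
  have q2n : q (2 * n) = S.pos F n 0 := by simp only [hq]; congr 1 <;> omega
  have far0 : 2 * n ≤ S.len hS ((S.pos F 0 n)⁻¹ * S.pos F n 0) := by
    have := c_le_len S hS ((S.pos F 0 n)⁻¹ * S.pos F n 0)
    rw [cx_mul, cy_mul, cx_inv, cy_inv, cx_pos, cy_pos, cx_pos, cy_pos] at this
    simp only [Nat.cast_zero, neg_zero, zero_add, add_zero, Nat.abs_cast, abs_neg] at this
    omega
  have gp : IsGeod S.gen (p 0) (p (2 * n)) (2 * n) p := by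
    apply geod_of_steps S hS
    · intro t ht
      by_cases h : t < n
      · have e1 : p t = p (t + 1) * S.gv (S.L (F 0 (n - (t + 1)))) := by
          have ea : t - n = 0 := by omega
          have eb : t + 1 - n = 0 := by omega
          have ec : n - t = n - (t + 1) + 1 := by omega
          simp only [hp, ea, eb, ec]
          rw [pos_up]
        rw [e1]
        exact len_gv_inv' S hS _ _
      · have e1 : p (t + 1) = p t * S.gh (S.B (F (t - n) 0)) := by
          have ea : t + 1 - n = t - n + 1 := by omega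
          have eb : n - t = 0 := by omega
          have ec : n - (t + 1) = 0 := by omega
          simp only [hp, ea, eb, ec]
          exact R (t - n) (by omega) 0 (by omega)
        rw [e1]
        exact len_gh_inv S hS _ _
    · rw [p0, p2n]
      exact far0
  have gq : IsGeod S.gen (q 0) (q (2 * n)) (2 * n) q := by
    apply geod_of_steps S hS
    · intro t ht
      by_cases h : t < n
      · have e1 : q (t + 1) = q t * S.gh (S.B (F t n)) := by
          have ea : min t n = t := by omega
          have eb : min (t + 1) n = t + 1 := by omega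
          have ec : min n (2 * n - t) = n := by omega
          have ed : min n (2 * n - (t + 1)) = n := by omega
          simp only [hq, ea, eb, ec, ed]
          exact R t (by omega) n le_rfl
        rw [e1]
        exact len_gh_inv S hS _ _
      · have e1 : q t = q (t + 1) * S.gv (S.L (F n (2 * n - (t + 1)))) := by
          have ea : min t n = n := by omega
          have eb : min (t + 1) n = n := by omega
          have ec : min n (2 * n - t) = 2 * n - (t + 1) + 1 := by omega
          have ed : min n (2 * n - (t + 1)) = 2 * n - (t + 1) := by omega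
          simp only [hq, ea, eb, ec, ed]
          rw [pos_up]
        rw [e1]
        exact len_gv_inv' S hS _ _
    · rw [q0, q2n]
      exact far0
  have e0 : p 0 = q 0 := by rw [p0, q0]
  have e1 : p (2 * n) = q (2 * n) := by rw [p2n, q2n]
  -- the reversed path of `q`
  have gq' : IsGeod S.gen (p (2 * n)) (p 0) (2 * n) (fun t => q (2 * n - t)) := by
    refine ⟨by simp [e1], by simp [e0], ?_⟩
    intro i j hij hj
    have := gq.dist (2 * n - j) (2 * n - i) (by omega) (by omega)
    rw [wdist_eq S hS] at this ⊢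
    rw [len_inv_mul_comm]
    rw [this]; omega
  have gc : IsGeod S.gen (p 0) (p 0) 0 (fun _ => p 0) := by
    refine ⟨rfl, rfl, ?_⟩
    intro i j hij hj
    rw [wdist_eq S hS]
    simp [len_one]
    omega
  -- the vertex `p n = (0, 0)` is far from `q` and from `p 0`
  have far : ∀ g : Grp S, (n : ℤ) ≤ |S.cx g| + |S.cy g| → ¬ wdist S.gen (p n) g ≤ δ := by
    intro g hg hd
    rw [wdist_eq S hS] at hd
    rw [pn] at hd
    have := c_le_len S hS ((S.pos F 0 0)⁻¹ * g)
    rw [cx_mul, cy_mul, cx_inv, cy_inv, cx_pos, cy_pos] at this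
    simp only [Nat.cast_zero, neg_zero, zero_add] at this
    omega
  rcases hδ (p 0) (p (2 * n)) (p 0) (2 * n) (2 * n) 0 p _ _ gp gq' gc n (by omega) with
    ⟨j, hj, hd⟩ | ⟨j, hj, hd⟩
  · refine far _ ?_ hd
    simp only [hq, cx_pos, cy_pos, Nat.abs_cast]
    omega
  · refine far _ ?_ hd
    simp only [hp, cx_pos, cy_pos, Nat.abs_cast]
    omega

end

end Pool.Agent.VHG
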