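import Pool.Agent.VHG.PresDefs
import Pool.Agent.VHG.Compact
import Pool.Agent.VHG.NonHyp
import Pool.Agent.VHG.Auto

/-!
# Finite presentations as inputs, and the reduction to tilings
-/

set_option autoImplicit false
set_option linter.unusedSectionVars false

namespace Pool.Agent.VHG

/-! ### transport -/

section transport

variable {G G' : Type*} [Group G] [Group G'] {ι ι' : Type*} (φ : G ≃* G') (e : ι ≃ ι') (x : ι → G)
  (x' : ι' → G')

lemma relabel (e : ι ≃ ι') (w : List (ι' × Bool)) :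
    (w.map fun a => (e.symm a.1, a.2)).map (fun a => (e a.1, a.2)) = w := by
  induction w with
  | nil => rfl
  | cons a w ih => rw [List.map_cons, List.map_cons, ih]; simp

lemma relabel' (e : ι ≃ ι') (w : List (ι × Bool)) :
    (w.map fun a => (e a.1, a.2)).map (fun a => (e.symm a.1, a.2)) = w := by
  induction w with
  | nil => rfl
  | cons a w ih => rw [List.map_cons, List.map_cons, ih]; simp

lemma wval_map (h : ∀ i, φ (x i) = x' (e i)) (w : List (ι × Bool)) :
    wval x' (w.map fun a => (e a.1, a.2)) = φ (wval x w) := by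
  induction w with
  | nil => simp [wval]
  | cons a w ih =>
    have h2 : wval x (a :: w) = (if a.2 then x a.1 else (x a.1)⁻¹) * wval x w := by simp [wval]
    have h3 : wval x' ((a :: w).map fun a => (e a.1, a.2)) =
      (if a.2 then x' (e a.1) else (x' (e a.1))⁻¹) * wval x' (w.map fun a => (e a.1, a.2)) := by
      simp [wval]
    rw [h3, h2, ih, map_mul]
    congr 1
    split_ifs <;> simp [h]

lemma wdist_map (h : ∀ i, φ (x i) = x' (e i)) (a b : G) :
    wdist x' (φ a) (φ b) = wdist x a b := by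
  unfold wdist
  congr 1
  ext n
  constructor
  · rintro ⟨w, rfl, hw⟩
    refine ⟨w.map fun a => (e.symm a.1, a.2), by simp, ?_⟩
    apply φ.injective
    rw [← hw, map_mul, ← wval_map φ e x x' h, relabel]
  · rintro ⟨w, rfl, hw⟩
    refine ⟨w.map fun a => (e a.1, a.2), by simp, ?_⟩
    rw [wval_map φ e x x' h, ← hw, map_mul]

lemma geod_map (h : ∀ i, φ (x i) = x' (e i)) {a b : G'} {n : ℕ} {p : ℕ → G'}
    (hp : IsGeod x' a b n p) : IsGeod x (φ.symm a) (φ.symm b) n (fun i => φ.symm (p i)) := by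
  refine ⟨by simp [hp.start], by simp [hp.stop], ?_⟩
  intro i j hij hj
  rw [← wdist_map φ e x x' h]
  simpa using hp.dist i j hij hj

lemma hyp_map (h : ∀ i, φ (x i) = x' (e i)) (hx : IsHyperbolicWrt x) : IsHyperbolicWrt x' := by
  obtain ⟨δ, hδ⟩ := hx
  refine ⟨δ, ?_⟩
  intro a b c l m n p q r hp hq hr i hi
  have := hδ _ _ _ l m n _ _ _ (geod_map φ e x x' h hp) (geod_map φ e x x' h hq)
    (geod_map φ e x x' h hr) i hi
  rcases this with ⟨j, hj, hd⟩ | ⟨j, hj, hd⟩
  · left
    refine ⟨j, hj, ?_⟩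
    rw [← wdist_map φ e x x' h] at hd
    simpa using hd
  · right
    refine ⟨j, hj, ?_⟩
    rw [← wdist_map φ e x x' h] at hd
    simpa using hd

lemma aut_map (h : ∀ i, φ (x i) = x' (e i)) (hx : IsAutomaticWrt x) : IsAutomaticWrt x' := by
  obtain ⟨L, hL, hs, K, hK⟩ := hx
  have key : ∀ w : List (ι' × Bool), wval x' w = φ (wval x (w.map fun a => (e.symm a.1, a.2))) := by
    intro w
    rw [← wval_map φ e x x' h, relabel]
  refine ⟨{w | (w.map fun a => (e.symm a.1, a.2)) ∈ L}, ?_, ?_, K, ?_⟩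
  · obtain ⟨σ, hσ, M, hM⟩ := hL
    refine ⟨σ, hσ, M.comap (fun a => (e.symm a.1, a.2)), ?_⟩
    rw [DFA.accepts_comap, hM]
    rfl
  · intro g
    obtain ⟨w, hw, hg⟩ := hs (φ.symm g)
    refine ⟨w.map fun a => (e a.1, a.2), ?_, ?_⟩
    · show (List.map _ (List.map _ w)) ∈ L
      rw [relabel']
      exact hw
    · rw [wval_map φ e x x' h, hg]; simp
  · intro u hu v hv huv t
    rw [key, key, List.map_take, List.map_take, wdist_map φ e x x' h]
    apply hK _ hu _ hv
    rw [key, key] at huv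
    rcases huv with h1 | ⟨i, h1⟩
    · left
      apply φ.injective
      simpa using h1
    · right
      refine ⟨e.symm i, ?_⟩
      apply φ.injective
      rw [h]
      simpa using h1

end transport

/-! ### tile sets given by lists of quadruples of numbers -/

/-- the tile set of a list of quadruples (labels of the left, right, bottom, upper side) -/
def tilesOf (l : List (ℕ × ℕ × ℕ × ℕ)) : Tiles (Fin l.length) ℕ ℕ where
  L t := l[t].1
  R t := l[t].2.1
  B t := l[t].2.2.1
  U t := l[t].2.2.2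

/-- a bound of the labels -/
def bound (l : List (ℕ × ℕ × ℕ × ℕ)) : ℕ := l.foldr (fun t b => t.1 + t.2.1 + t.2.2.1 + t.2.2.2 + 1 + b) 0

lemma bound_spec {l : List (ℕ × ℕ × ℕ × ℕ)} : ∀ {t : ℕ × ℕ × ℕ × ℕ}, t ∈ l →
    t.1 < bound l ∧ t.2.1 < bound l ∧ t.2.2.1 < bound l ∧ t.2.2.2 < bound l := by
  induction l with
  | nil => intro t ht; simp at ht
  | cons s l ih =>
    intro t ht
    have hb : bound (s :: l) = s.1 + s.2.1 + s.2.2.1 + s.2.2.2 + 1 + bound l := rfl
    rw [hb]
    rcases List.mem_cons.1 ht with rfl | ht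
    · omega
    · have := ih ht
      omega

/-- the same tile set with labels in `Fin (bound l)` -/
def tilesFin (l : List (ℕ × ℕ × ℕ × ℕ)) : Tiles (Fin l.length) (Fin (bound l)) (Fin (bound l)) where
  L t := ⟨l[t].1, (bound_spec (l.getElem_mem t.2)).1⟩
  R t := ⟨l[t].2.1, (bound_spec (l.getElem_mem t.2)).2.1⟩
  B t := ⟨l[t].2.2.1, (bound_spec (l.getElem_mem t.2)).2.2.1⟩
  U t := ⟨l[t].2.2.2, (bound_spec (l.getElem_mem t.2)).2.2.2⟩

lemma tilesFin_det {l : List (ℕ × ℕ × ℕ × ℕ)} (h : (tilesOf l).Det) : (tilesFin l).Det := by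
  constructor
  · intro s t h1 h2; exact h.LB s t (congrArg Fin.val h1) (congrArg Fin.val h2)
  · intro s t h1 h2; exact h.LU s t (congrArg Fin.val h1) (congrArg Fin.val h2)
  · intro s t h1 h2; exact h.RB s t (congrArg Fin.val h1) (congrArg Fin.val h2)
  · intro s t h1 h2; exact h.RU s t (congrArg Fin.val h1) (congrArg Fin.val h2)

lemma tilesFin_patches {l : List (ℕ × ℕ × ℕ × ℕ)} (h : HasPatches (tilesOf l)) :
    HasPatches (tilesFin l) := by
  intro n
  obtain ⟨F, h1, h2⟩ := h n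
  exact ⟨F, fun i j hi hj => Fin.ext (h1 i j hi hj), fun i j hi hj => Fin.ext (h2 i j hi hj)⟩

lemma tilesFin_folded {l : List (ℕ × ℕ × ℕ × ℕ)} (h : ¬ ∃ F ex ey, IsFolded (tilesOf l) F ex ey) :
    ¬ ∃ F ex ey, IsFolded (tilesFin l) F ex ey := by
  rintro ⟨F, ex, ey, hF⟩
  apply h
  refine ⟨F, ex, ey, ?_, ?_, hF.hf, hF.vf⟩
  · intro i j
    have := congrArg Fin.val (hF.h i j)
    unfold Tiles.rt Tiles.lt at this ⊢
    split_ifs at this ⊢ <;> exact this
  · intro i j
    have := congrArg Fin.val (hF.v i j)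
    unfold Tiles.up Tiles.dn at this ⊢
    split_ifs at this ⊢ <;> exact this

/-- the presentation of the group of a tile set -/
def presOf (l : List (ℕ × ℕ × ℕ × ℕ)) : PresData :=
  (bound l + bound l, l.map fun t => [(t.1, true), (bound l + t.2.2.2, true), (t.2.1, false),
    (bound l + t.2.2.1, false)])

lemma presOf_wf (l : List (ℕ × ℕ × ℕ × ℕ)) : WellFormed (presOf l) := by
  intro w hw a ha
  simp only [presOf, List.mem_map] at hw ⊢
  obtain ⟨t, ht, rfl⟩ := hw
  have := bound_spec ht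
  simp only [List.mem_cons, List.not_mem_nil, or_false] at ha
  rcases ha with rfl | rfl | rfl | rfl <;> simp only <;> omega

lemma presOf_rels (l : List (ℕ × ℕ × ℕ × ℕ)) :
    presRels (presOf l) = FreeGroup.freeGroupCongr (finSumFinEquiv (m := bound l) (n := bound l)) ''
      (tilesFin l).rels := by
  have key : ∀ t : Fin l.length, relWord (presOf l).1 [(l[t].1, true), (bound l + l[t].2.2.2, true),
      (l[t].2.1, false), (bound l + l[t].2.2.1, false)] =
      FreeGroup.freeGroupCongr (finSumFinEquiv (m := bound l) (n := bound l))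
        (FreeGroup.of (Sum.inl ((tilesFin l).L t)) * FreeGroup.of (Sum.inr ((tilesFin l).U t)) *
          (FreeGroup.of (Sum.inr ((tilesFin l).B t)) * FreeGroup.of (Sum.inl ((tilesFin l).R t)))⁻¹) := by
    intro t
    have hb := bound_spec (l.getElem_mem t.2)
    have b1 : l[t].1 < bound l + bound l := by
      have := hb.1
      simp only [Fin.getElem_fin]; omega
    have b2 : bound l + l[t].2.2.2 < bound l + bound l := by
      have := hb.2.2.2
      simp only [Fin.getElem_fin]; omega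
    have b3 : l[t].2.1 < bound l + bound l := by
      have := hb.2.1
      simp only [Fin.getElem_fin]; omega
    have b4 : bound l + l[t].2.2.1 < bound l + bound l := by
      have := hb.2.2.1
      simp only [Fin.getElem_fin]; omega
    have hn : (presOf l).1 = bound l + bound l := rfl
    simp only [relWord, List.map_cons, List.map_nil, List.prod_cons, List.prod_nil, mul_one, hn,
      b1, b2, b3, b4, dif_pos, if_true, map_mul, map_inv, FreeGroup.freeGroupCongr_apply,
      FreeGroup.map.of, mul_inv_rev]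
    simp only [mul_assoc]
    rfl
  ext r
  constructor
  · rintro ⟨w, hw, rfl⟩
    simp only [presOf, List.mem_map] at hw
    obtain ⟨t, ht, rfl⟩ := hw
    obtain ⟨i, hi, rfl⟩ := List.getElem_of_mem ht
    exact ⟨_, ⟨⟨i, hi⟩, rfl⟩, (key ⟨i, hi⟩).symm⟩
  · rintro ⟨_, ⟨t, rfl⟩, rfl⟩
    refine ⟨_, ?_, (key t).symm⟩
    simp only [presOf, List.mem_map]
    exact ⟨l[t], l.getElem_mem t.2, rfl⟩

lemma presOf_equiv (l : List (ℕ × ℕ × ℕ × ℕ)) :
    ∃ φ : Grp (tilesFin l) ≃* PresGroup (presOf l),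
      ∀ i, φ ((tilesFin l).gen i) = presGen (presOf l) (finSumFinEquiv i) := by
  have main : ∀ R : Set (FreeGroup (Fin (bound l + bound l))),
      R = FreeGroup.freeGroupCongr (finSumFinEquiv (m := bound l) (n := bound l)) ''
        (tilesFin l).rels → ∃ φ : Grp (tilesFin l) ≃* PresentedGroup R,
      ∀ i, φ ((tilesFin l).gen i) = PresentedGroup.of (finSumFinEquiv i) := by
    rintro R rfl
    exact ⟨PresentedGroup.equivPresentedGroup _ finSumFinEquiv, fun i => rfl⟩
  exact main _ (presOf_rels l)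

lemma presOf_automatic {l : List (ℕ × ℕ × ℕ × ℕ)} (h : (tilesOf l).Det) :
    IsAutomaticWrt (presGen (presOf l)) := by
  obtain ⟨φ, hφ⟩ := presOf_equiv l
  exact aut_map φ finSumFinEquiv _ _ hφ (automatic _ (tilesFin_det h))

lemma presOf_hyp {l : List (ℕ × ℕ × ℕ × ℕ)} :
    IsHyperbolicWrt (presGen (presOf l)) ↔ IsHyperbolicWrt (tilesFin l).gen := by
  obtain ⟨φ, hφ⟩ := presOf_equiv l
  constructor
  · apply hyp_map φ.symm finSumFinEquiv.symm
    intro i
    rw [MulEquiv.symm_apply_eq, hφ]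
    simp
  · exact hyp_map φ finSumFinEquiv _ _ hφ

/-! ### computability of the presentation -/

lemma bound_primrec : Primrec bound := by
  unfold bound
  refine Primrec.list_foldr (f := fun l => l) (g := fun _ => 0)
    (h := fun _ (p : (ℕ × ℕ × ℕ × ℕ) × ℕ) => p.1.1 + p.1.2.1 + p.1.2.2.1 + p.1.2.2.2 + 1 + p.2)
    Primrec.id (Primrec.const 0) ?_
  have h0 : Primrec fun q : List (ℕ × ℕ × ℕ × ℕ) × (ℕ × ℕ × ℕ × ℕ) × ℕ => q.2.1 :=
    Primrec.fst.comp Primrec.snd
  have h1 : Primrec fun q : List (ℕ × ℕ × ℕ × ℕ) × (ℕ × ℕ × ℕ × ℕ) × ℕ => q.2.1.1 :=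
    Primrec.fst.comp h0
  have h2 : Primrec fun q : List (ℕ × ℕ × ℕ × ℕ) × (ℕ × ℕ × ℕ × ℕ) × ℕ => q.2.1.2 :=
    Primrec.snd.comp h0
  have h3 : Primrec fun q : List (ℕ × ℕ × ℕ × ℕ) × (ℕ × ℕ × ℕ × ℕ) × ℕ => q.2.1.2.1 :=
    Primrec.fst.comp h2
  have h4 : Primrec fun q : List (ℕ × ℕ × ℕ × ℕ) × (ℕ × ℕ × ℕ × ℕ) × ℕ => q.2.1.2.2.1 :=
    Primrec.fst.comp (Primrec.snd.comp h2)
  have h5 : Primrec fun q : List (ℕ × ℕ × ℕ × ℕ) × (ℕ × ℕ × ℕ × ℕ) × ℕ => q.2.1.2.2.2 :=
    Primrec.snd.comp (Primrec.snd.comp h2)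
  have h6 : Primrec fun q : List (ℕ × ℕ × ℕ × ℕ) × (ℕ × ℕ × ℕ × ℕ) × ℕ => q.2.2 :=
    Primrec.snd.comp Primrec.snd
  exact Primrec.nat_add.comp (Primrec.nat_add.comp (Primrec.nat_add.comp (Primrec.nat_add.comp
    (Primrec.nat_add.comp h1 h3) h4) h5) (Primrec.const 1)) h6

lemma presOf_primrec : Primrec presOf := by
  unfold presOf
  refine Primrec.pair (Primrec.nat_add.comp bound_primrec bound_primrec) ?_
  refine Primrec.list_map Primrec.id ?_
  have hb : Primrec fun q : List (ℕ × ℕ × ℕ × ℕ) × (ℕ × ℕ × ℕ × ℕ) => bound q.1 :=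
    bound_primrec.comp Primrec.fst
  have h1 : Primrec fun q : List (ℕ × ℕ × ℕ × ℕ) × (ℕ × ℕ × ℕ × ℕ) => q.2.1 :=
    Primrec.fst.comp Primrec.snd
  have h2 : Primrec fun q : List (ℕ × ℕ × ℕ × ℕ) × (ℕ × ℕ × ℕ × ℕ) => q.2.2 :=
    Primrec.snd.comp Primrec.snd
  have h3 : Primrec fun q : List (ℕ × ℕ × ℕ × ℕ) × (ℕ × ℕ × ℕ × ℕ) => q.2.2.1 :=
    Primrec.fst.comp h2
  have h4 : Primrec fun q : List (ℕ × ℕ × ℕ × ℕ) × (ℕ × ℕ × ℕ × ℕ) => q.2.2.2.1 :=
    Primrec.fst.comp (Primrec.snd.comp h2)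
  have h5 : Primrec fun q : List (ℕ × ℕ × ℕ × ℕ) × (ℕ × ℕ × ℕ × ℕ) => q.2.2.2.2 :=
    Primrec.snd.comp (Primrec.snd.comp h2)
  refine Primrec.list_cons.comp (Primrec.pair h1 (Primrec.const true)) ?_
  refine Primrec.list_cons.comp (Primrec.pair (Primrec.nat_add.comp hb h5) (Primrec.const true)) ?_
  refine Primrec.list_cons.comp (Primrec.pair h3 (Primrec.const false)) ?_
  exact Primrec.list_cons.comp (Primrec.pair (Primrec.nat_add.comp hb h4) (Primrec.const false))
    (Primrec.const [])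

/-- **Reduction**: a computable family of deterministic tile sets, with large patches for the indices in
a non computable set `K` and without folded tilings of the plane for the other ones, shows that
hyperbolicity of automatic groups is undecidable -/
theorem no_algorithm_of {α : Type} [Primcodable α] {K : α → Prop} (hK : ¬ ComputablePred K)
    (F : α → List (ℕ × ℕ × ℕ × ℕ)) (hF : Computable F) (hdet : ∀ M, (tilesOf (F M)).Det)
    (hyes : ∀ M, K M → HasPatches (tilesOf (F M)))
    (hno : ∀ M, ¬ K M → ¬ ∃ G ex ey, IsFolded (tilesOf (F M)) G ex ey) :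
    ¬ ∃ f : PresData →. Bool, Partrec f ∧ DecidesHyp f := by
  classical
  rintro ⟨f, hf, hd⟩
  apply hK
  have key : ∀ M, ∃ b ∈ f (presOf (F M)), (b = true ↔ ¬ K M) := by
    intro M
    obtain ⟨b, hb, hb'⟩ := hd (presOf (F M)) (presOf_wf _) (presOf_automatic (hdet M))
    refine ⟨b, hb, hb'.trans ?_⟩
    rw [presOf_hyp]
    constructor
    · intro h hk
      exact not_hyperbolic _ (tilesFin_det (hdet M)) (tilesFin_patches (hyes M hk)) h
    · intro hk
      exact hyperbolic_of_noFolded _ (tilesFin_det (hdet M)) (tilesFin_folded (hno M hk))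
  refine ⟨fun M => Classical.dec _, ?_⟩
  have h1 : Partrec fun M => f (presOf (F M)) := hf.comp (presOf_primrec.to_comp.comp hF)
  have h2 : Partrec fun M => (f (presOf (F M))).map not :=
    h1.map (Primrec.not.to_comp.comp Computable.snd).to₂
  refine h2.of_eq ?_
  intro M
  obtain ⟨b, hb, hb'⟩ := key M
  rw [Part.eq_some_iff.2 hb, Part.map_some]
  congr 1
  by_cases hk : K M
  · have : b = false := by
      cases b
      · rfl
      · exact absurd hk (hb'.1 rfl)
    simp [this, hk]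
  · have : b = true := hb'.2 hk
    simp [this, hk]

end Pool.Agent.VHG
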