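import Mathlib

/-!
# VHG: groups of square tile sets. Basic definitions.

`Tiles T V H` : a set of square tiles `T`, vertical edge labels `V` (left and right sides),
horizontal edge labels `H` (bottom and upper sides). The group `G S` has the relations
`L t * U t = B t * R t`.
-/

set_option autoImplicit false

namespace Pool.Agent.VHG

/-- square tiles with labelled sides: `L`, `R` (vertical sides), `B`, `U` (horizontal sides) -/
structure Tiles (T V H : Type) where
  L : T → V
  R : T → V
  B : T → H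
  U : T → H

variable {T V H : Type}

/-- four way determinism: each pair (vertical side, horizontal side) of labels determines the tile -/
structure Tiles.Det (S : Tiles T V H) : Prop where
  LB : ∀ s t, S.L s = S.L t → S.B s = S.B t → s = t
  LU : ∀ s t, S.L s = S.L t → S.U s = S.U t → s = t
  RB : ∀ s t, S.R s = S.R t → S.B s = S.B t → s = t
  RU : ∀ s t, S.R s = S.R t → S.U s = S.U t → s = t

/-- label of the geometric right side of a tile placed with horizontal orientation `e` -/
def Tiles.rt (S : Tiles T V H) (e : Bool) (t : T) : V := if e then S.R t else S.L t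
/-- geometric left side -/
def Tiles.lt (S : Tiles T V H) (e : Bool) (t : T) : V := if e then S.L t else S.R t
/-- geometric upper side of a tile placed with vertical orientation `e` -/
def Tiles.up (S : Tiles T V H) (e : Bool) (t : T) : H := if e then S.U t else S.B t
/-- geometric lower side -/
def Tiles.dn (S : Tiles T V H) (e : Bool) (t : T) : H := if e then S.B t else S.U t

/-- A folded tiling of the plane: every column `i` has a horizontal orientation `ex i`, every row `j`
a vertical orientation `ey j`; labels match; at a fold the two adjacent tiles are different. -/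
structure IsFolded (S : Tiles T V H) (F : ℤ → ℤ → T) (ex ey : ℤ → Bool) : Prop where
  h : ∀ i j, S.rt (ex i) (F i j) = S.lt (ex (i + 1)) (F (i + 1) j)
  v : ∀ i j, S.up (ey j) (F i j) = S.dn (ey (j + 1)) (F i (j + 1))
  hf : ∀ i j, ex i ≠ ex (i + 1) → F i j ≠ F (i + 1) j
  vf : ∀ i j, ey j ≠ ey (j + 1) → F i j ≠ F i (j + 1)

/-- A folded patch on the box `[0,n) × [0,n)`. -/
structure IsFoldedPatch (S : Tiles T V H) (n : ℕ) (F : ℕ → ℕ → T) (ex ey : ℕ → Bool) : Prop where
  h : ∀ i j, i + 1 < n → j < n → S.rt (ex i) (F i j) = S.lt (ex (i + 1)) (F (i + 1) j)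
  v : ∀ i j, i < n → j + 1 < n → S.up (ey j) (F i j) = S.dn (ey (j + 1)) (F i (j + 1))
  hf : ∀ i j, i + 1 < n → j < n → ex i ≠ ex (i + 1) → F i j ≠ F (i + 1) j
  vf : ∀ i j, i < n → j + 1 < n → ey j ≠ ey (j + 1) → F i j ≠ F i (j + 1)

/-- arbitrarily large square patches exist -/
def HasPatches (S : Tiles T V H) : Prop :=
  ∀ n : ℕ, ∃ F : ℕ → ℕ → T,
    (∀ i j, i + 1 < n → j < n → S.R (F i j) = S.L (F (i + 1) j)) ∧
    (∀ i j, i < n → j + 1 < n → S.U (F i j) = S.B (F i (j + 1)))

/-- the relators `L t * U t * (B t * R t)⁻¹` -/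
def Tiles.rels (S : Tiles T V H) : Set (FreeGroup (V ⊕ H)) :=
  Set.range fun t : T => FreeGroup.of (Sum.inl (S.L t)) * FreeGroup.of (Sum.inr (S.U t)) *
    (FreeGroup.of (Sum.inr (S.B t)) * FreeGroup.of (Sum.inl (S.R t)))⁻¹

/-- the group of a tile set -/
abbrev Grp (S : Tiles T V H) : Type := PresentedGroup S.rels

/-! ### Squares -/

/-- signed letters -/
def inv' {α : Type} (x : α × Bool) : α × Bool := (x.1, !x.2)

@[simp] lemma inv'_inv' {α : Type} (x : α × Bool) : inv' (inv' x) = x := by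
  simp [inv']

lemma inv'_ne {α : Type} (x : α × Bool) : inv' x ≠ x := by
  intro h
  have := congrArg Prod.snd h
  simp [inv'] at this

/-- `Sq h v v' h'`: there is a placed tile with lower side `h`, right side `v`, left side `v'`, upper
side `h'` (signed letters, read to the right and upwards) -/
def Sq (S : Tiles T V H) (h : H × Bool) (v v' : V × Bool) (h' : H × Bool) : Prop :=
  ∃ t ex ey, h = (S.dn ey t, ex) ∧ v = (S.rt ex t, ey) ∧ v' = (S.lt ex t, ey) ∧ h' = (S.up ey t, ex)

lemma Sq.s1 {S : Tiles T V H} {h : H × Bool} {v v' : V × Bool} {h' : H × Bool} (q : Sq S h v v' h') :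
    Sq S (inv' h) v' v (inv' h') := by
  obtain ⟨t, ex, ey, rfl, rfl, rfl, rfl⟩ := q
  refine ⟨t, !ex, ey, rfl, ?_, ?_, rfl⟩ <;> cases ex <;> simp [Tiles.rt, Tiles.lt]

lemma Sq.s2 {S : Tiles T V H} {h : H × Bool} {v v' : V × Bool} {h' : H × Bool} (q : Sq S h v v' h') :
    Sq S h' (inv' v) (inv' v') h := by
  obtain ⟨t, ex, ey, rfl, rfl, rfl, rfl⟩ := q
  refine ⟨t, ex, !ey, ?_, rfl, rfl, ?_⟩ <;> cases ey <;> simp [Tiles.up, Tiles.dn]

lemma Sq.det {S : Tiles T V H} (hS : S.Det) {h : H × Bool} {v v' v'' : V × Bool} {h' h'' : H × Bool}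
    (q : Sq S h v v' h') (r : Sq S h v v'' h'') : v' = v'' ∧ h' = h'' := by
  obtain ⟨t, ex, ey, e1, e2, e3, e4⟩ := q
  obtain ⟨s, ex', ey', f1, f2, f3, f4⟩ := r
  have hx : ex = ex' := by rw [e1] at f1; exact (Prod.ext_iff.1 f1).2
  have hy : ey = ey' := by rw [e2] at f2; exact (Prod.ext_iff.1 f2).2
  subst hx; subst hy
  have h1 : S.dn ey t = S.dn ey s := by rw [e1] at f1; exact (Prod.ext_iff.1 f1).1
  have h2 : S.rt ex t = S.rt ex s := by rw [e2] at f2; exact (Prod.ext_iff.1 f2).1
  have hts : t = s := by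
    cases ex <;> cases ey <;> simp [Tiles.dn, Tiles.rt] at h1 h2
    · exact hS.LU _ _ h2 h1
    · exact hS.LB _ _ h2 h1
    · exact hS.RU _ _ h2 h1
    · exact hS.RB _ _ h2 h1
  subst hts
  exact ⟨e3.trans f3.symm, e4.trans f4.symm⟩

/-- the value of a signed letter -/
def val {α Γ : Type} [Group Γ] (f : α → Γ) (x : α × Bool) : Γ := if x.2 then f x.1 else (f x.1)⁻¹

@[simp] lemma val_inv' {α Γ : Type} [Group Γ] (f : α → Γ) (x : α × Bool) :
    val f (inv' x) = (val f x)⁻¹ := by
  rcases x with ⟨a, b⟩; cases b <;> simp [val, inv']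

/-- vertical generators -/
def Tiles.gv (S : Tiles T V H) (v : V) : Grp S := PresentedGroup.of (Sum.inl v)
/-- horizontal generators -/
def Tiles.gh (S : Tiles T V H) (h : H) : Grp S := PresentedGroup.of (Sum.inr h)

lemma rel_base (S : Tiles T V H) (t : T) :
    S.gv (S.L t) * S.gh (S.U t) = S.gh (S.B t) * S.gv (S.R t) := by
  have h : (PresentedGroup.mk S.rels (FreeGroup.of (Sum.inl (S.L t)) *
      FreeGroup.of (Sum.inr (S.U t)) *
      (FreeGroup.of (Sum.inr (S.B t)) * FreeGroup.of (Sum.inl (S.R t)))⁻¹) : Grp S) = 1 :=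
    PresentedGroup.one_of_mem ⟨t, rfl⟩
  rw [map_mul, map_inv, mul_inv_eq_one, map_mul, map_mul] at h
  exact h

/-- every square is a relation -/
lemma Sq.rel {S : Tiles T V H} {h : H × Bool} {v v' : V × Bool} {h' : H × Bool} (q : Sq S h v v' h') :
    val S.gh h * val S.gv v = val S.gv v' * val S.gh h' := by
  obtain ⟨t, ex, ey, rfl, rfl, rfl, rfl⟩ := q
  have h := rel_base S t
  cases ex <;> cases ey <;> simp [Tiles.dn, Tiles.rt, Tiles.lt, Tiles.up, val]
  · rw [← mul_inv_rev, ← mul_inv_rev, h]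
  · rw [inv_mul_eq_iff_eq_mul, ← mul_assoc, ← h]; simp [mul_assoc]
  · rw [eq_inv_mul_iff_mul_eq, ← mul_assoc, h]; simp [mul_assoc]
  · exact h.symm

end Pool.Agent.VHG
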