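import Mathlib

/-!
# Word metrics, geodesics, thin triangles, automatic structures (the definitions of the problem)
-/

set_option autoImplicit false

namespace Pool.Agent.VHG

variable {G : Type*} [Group G] {ι : Type*}

/-- value in `G` of a word over the generators `x i` (letter `(i, true)`) and their inverses
(letter `(i, false)`) -/
def wval (x : ι → G) (w : List (ι × Bool)) : G :=
  (w.map fun p => if p.2 then x p.1 else (x p.1)⁻¹).prod

/-- the word metric: least length of a word from `g` to `h` (distance in the Cayley graph) -/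
noncomputable def wdist (x : ι → G) (g h : G) : ℕ :=
  sInf {n | ∃ w : List (ι × Bool), w.length = n ∧ g * wval x w = h}

/-- `p 0, p 1, ..., p n` is a geodesic in the Cayley graph from `a` to `b` -/
structure IsGeod (x : ι → G) (a b : G) (n : ℕ) (p : ℕ → G) : Prop where
  start : p 0 = a
  stop : p n = b
  dist : ∀ i j, i ≤ j → j ≤ n → wdist x (p i) (p j) = j - i

/-- every geodesic triangle is `δ`-thin: each side is in the `δ`-neighbourhood of the other two.
(The roles of the three sides can be exchanged cyclically, so one side is enough.) -/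
def ThinTriangles (x : ι → G) (δ : ℕ) : Prop :=
  ∀ (a b c : G) (l m n : ℕ) (p q r : ℕ → G), IsGeod x a b l p → IsGeod x b c m q →
    IsGeod x c a n r → ∀ i ≤ l, (∃ j ≤ m, wdist x (p i) (q j) ≤ δ) ∨
      (∃ j ≤ n, wdist x (p i) (r j) ≤ δ)

/-- word hyperbolicity, with respect to the finite generating family `x` -/
def IsHyperbolicWrt (x : ι → G) : Prop := ∃ δ : ℕ, ThinTriangles x δ

/-- automaticity, with respect to the finite generating family `x` -/
def IsAutomaticWrt (x : ι → G) : Prop :=
  ∃ L : Language (ι × Bool), L.IsRegular ∧ (∀ g : G, ∃ w ∈ L, wval x w = g) ∧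
    ∃ K : ℕ, ∀ u ∈ L, ∀ v ∈ L,
      ((wval x u)⁻¹ * wval x v = 1 ∨ ∃ i, (wval x u)⁻¹ * wval x v = x i) →
        ∀ t : ℕ, wdist x (wval x (u.take t)) (wval x (v.take t)) ≤ K

end Pool.Agent.VHG
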