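import Pool.Agent.VHG.Med

/-!
# Two prefixes without common first letter span a grid of squares
-/

set_option autoImplicit false
set_option linter.unusedSectionVars false

namespace Pool.Agent.VHG

section

open Classical

variable {T V H : Type} (S : Tiles T V H) (hS : S.Det)

/-- kind of a letter: horizontal or not -/
def hz : Ltr V H → Bool
  | Sum.inl _ => true
  | Sum.inr _ => false

lemma first_same {g : Grp S} {x y : Ltr V H} (h1 : S.First hS g x) (h2 : S.First hS g y)
    (h : hz x = hz y) : x = y := by
  rcases x with a | a <;> rcases y with b | b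
  · rw [first_hh S hS h1 h2]
  · simp [hz] at h
  · simp [hz] at h
  · rw [first_vv S hS h1 h2]

/-- quadrangle property of first letters, with the kinds of the letters -/
lemma first_quad' {g : Grp S} {x y : Ltr V H} (hxy : x ≠ y) (h1 : S.First hS g x)
    (h2 : S.First hS g y) : ∃ c d : Ltr V H, hz c = hz y ∧ hz d = hz x ∧
      S.lv x * S.lv c = S.lv y * S.lv d ∧
      S.First hS (S.lv (linv x) * g) c ∧ S.First hS (S.lv (linv y) * g) d := by
  have key : ∀ c d : Ltr V H, S.lv x * S.lv c = S.lv y * S.lv d →
      (S.First hS (S.lv (linv x) * g) c → S.First hS (S.lv (linv y) * g) d) := by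
    intro c d e h
    have l1 := (first_iff S hS _ _).1 h1
    have l2 := (first_iff S hS _ _).1 h2
    have l3 := (first_iff S hS _ _).1 h
    rw [first_iff]
    have e2 : S.lv (linv d) * (S.lv (linv y) * g) = S.lv (linv c) * (S.lv (linv x) * g) := by
      simp only [lv_linv]
      rw [← mul_assoc, ← mul_assoc, ← mul_inv_rev, ← mul_inv_rev, e]
    rw [e2]
    omega
  have key' : ∀ c d : Ltr V H, S.lv x * S.lv c = S.lv y * S.lv d →
      (S.First hS (S.lv (linv y) * g) d → S.First hS (S.lv (linv x) * g) c) := by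
    intro c d e h
    have l1 := (first_iff S hS _ _).1 h1
    have l2 := (first_iff S hS _ _).1 h2
    have l3 := (first_iff S hS _ _).1 h
    rw [first_iff]
    have e2 : S.lv (linv d) * (S.lv (linv y) * g) = S.lv (linv c) * (S.lv (linv x) * g) := by
      simp only [lv_linv]
      rw [← mul_assoc, ← mul_assoc, ← mul_inv_rev, ← mul_inv_rev, e]
    rw [← e2]
    omega
  rcases x with h | v <;> rcases y with k | u
  · exact absurd (by rw [first_hh S hS h1 h2]) hxy
  · obtain ⟨v₁, h₁, q, hf⟩ := first_hv S hS h1 h2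
    exact ⟨Sum.inr v₁, Sum.inl h₁, rfl, rfl, q.rel, hf, key (Sum.inr v₁) (Sum.inl h₁) q.rel hf⟩
  · obtain ⟨v₁, h₁, q, hf⟩ := first_hv S hS h2 h1
    exact ⟨Sum.inl h₁, Sum.inr v₁, rfl, rfl, q.rel.symm,
      key' (Sum.inl h₁) (Sum.inr v₁) q.rel.symm hf, hf⟩
  · exact absurd (by rw [first_vv S hS h1 h2]) hxy

/-- value of a word written from left to right -/
def Tiles.pv (w : List (Ltr V H)) : Grp S := (w.map S.lv).prod

@[simp] lemma pv_nil : S.pv ([] : List (Ltr V H)) = 1 := rfl

@[simp] lemma pv_cons (x : Ltr V H) (w : List (Ltr V H)) : S.pv (x :: w) = S.lv x * S.pv w := by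
  simp [Tiles.pv]

lemma pv_append (w w' : List (Ltr V H)) : S.pv (w ++ w') = S.pv w * S.pv w' := by
  simp [Tiles.pv]

lemma pv_reverse (w : List (Ltr V H)) : S.pv w.reverse = S.ev w := by
  induction w with
  | nil => rfl
  | cons x w ih => simp [pv_append, ih, Tiles.ev]

lemma len_pv_le (w : List (Ltr V H)) : S.len hS (S.pv w) ≤ w.length := by
  have := len_ev_le S hS w.reverse
  rw [← pv_reverse, List.reverse_reverse] at this
  simpa using this

lemma exists_word (g : Grp S) : ∃ w : List (Ltr V H), S.pv w = g ∧ w.length = S.len hS g := by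
  refine ⟨(S.nf hS g).1.reverse, ?_, by simp [Tiles.len]⟩
  rw [pv_reverse, ev_nf]

/-- `w` is a geodesic word of a prefix of `g` -/
def Tiles.GP : List (Ltr V H) → Grp S → Prop
  | [], _ => True
  | x :: w, g => S.First hS g x ∧ Tiles.GP w (S.lv (linv x) * g)

lemma gp_iff : ∀ (w : List (Ltr V H)) (g : Grp S),
    S.GP hS w g ↔ w.length + S.len hS ((S.pv w)⁻¹ * g) = S.len hS g := by
  intro w
  induction w with
  | nil => intro g; simp [Tiles.GP]
  | cons x w ih =>
    intro g
    have e : (S.pv (x :: w))⁻¹ * g = (S.pv w)⁻¹ * (S.lv (linv x) * g) := by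
      rw [pv_cons, lv_linv]; group
    have h1 := len_mul_left S hS g (linv x)
    have h2 : S.len hS (S.lv (linv x) * g) ≤
        w.length + S.len hS ((S.pv w)⁻¹ * (S.lv (linv x) * g)) := by
      have h3 := len_mul_le S hS (S.pv w) ((S.pv w)⁻¹ * (S.lv (linv x) * g))
      have e3 : S.pv w * ((S.pv w)⁻¹ * (S.lv (linv x) * g)) = S.lv (linv x) * g := by group
      rw [e3] at h3
      have := len_pv_le S hS w
      omega
    rw [Tiles.GP, ih, first_iff, e]
    simp only [List.length_cons]
    constructor
    · rintro ⟨h3, h4⟩; omega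
    · intro h3; constructor <;> omega

lemma gp_self {w : List (Ltr V H)} (h : S.len hS (S.pv w) = w.length) : S.GP hS w (S.pv w) := by
  rw [gp_iff, inv_mul_cancel, len_one, h]; rfl

lemma gp_of_pre {w : List (Ltr V H)} {g : Grp S} (h : S.len hS (S.pv w) = w.length)
    (hp : S.Pre hS (S.pv w) g) : S.GP hS w g := by
  rw [gp_iff]
  unfold Tiles.Pre at hp
  omega

lemma gp_len {w : List (Ltr V H)} {g : Grp S} (h : S.GP hS w g) :
    S.len hS (S.pv w) = w.length := by
  rw [gp_iff] at h
  have h1 := len_pv_le S hS w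
  have h2 := len_mul_le S hS (S.pv w) ((S.pv w)⁻¹ * g)
  have e : S.pv w * ((S.pv w)⁻¹ * g) = g := by group
  rw [e] at h2
  omega

lemma gp_tail_len {x : Ltr V H} {w : List (Ltr V H)} (h : S.len hS (S.pv (x :: w)) = (x :: w).length) :
    S.len hS (S.pv w) = w.length ∧ S.First hS (S.pv (x :: w)) x := by
  have h1 := gp_self S hS h
  refine ⟨?_, h1.1⟩
  have h2 := gp_len S hS h1.2
  exact h2

/-- strip lemma: a prefix without the first letter `x` consists of letters of the other kind -/
lemma strip : ∀ (Q : List (Ltr V H)) (g : Grp S) (x : Ltr V H), S.First hS g x → S.GP hS Q g →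
    ¬ S.First hS (S.pv Q) x → ∀ y ∈ Q, hz y ≠ hz x := by
  intro Q
  induction Q with
  | nil => intro g x _ _ _ y hy; simp at hy
  | cons y Q ih =>
    intro g x hx hQ hn
    have hlen := gp_len S hS hQ
    have hy := (gp_tail_len S hS hlen).2
    have hxy : x ≠ y := by rintro rfl; exact hn hy
    obtain ⟨c, d, hc, hd, hcd, h3, h4⟩ := first_quad' S hS hxy hx hQ.1
    have hyx : hz y ≠ hz x := fun h => hxy (first_same S hS hx hQ.1 h.symm)
    have h5 : ¬ S.First hS (S.pv Q) d := by
      intro h6
      apply hn
      have h7 := (first_iff S hS _ _).1 h6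
      have e : S.lv (linv x) * S.pv (y :: Q) = S.lv c * (S.lv (linv d) * S.pv Q) := by
        rw [pv_cons]
        have : S.lv y = S.lv x * S.lv c * (S.lv d)⁻¹ := by rw [hcd]; group
        rw [this, lv_linv, lv_linv]; group
      unfold Tiles.First
      rw [e]
      have h8 := len_mul_left S hS (S.lv (linv d) * S.pv Q) c
      have h9 := (gp_tail_len S hS hlen).1
      rw [hlen]
      simp only [List.length_cons]
      omega
    intro z hz'
    rcases List.mem_cons.1 hz' with rfl | hz'
    · exact hyx
    · have := ih _ d h4 hQ.2 h5 z hz'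
      rwa [hd] at this

/-- rows of squares -/
inductive Row : V × Bool → List (H × Bool) → List (H × Bool) → Prop
  | nil (v : V × Bool) : Row v [] []
  | cons {v w : V × Bool} {h h' : H × Bool} {hs hs' : List (H × Bool)} (q : Sq S h w v h')
      (r : Row w hs hs') : Row v (h :: hs) (h' :: hs')

/-- grids of squares: left side, bottom side -/
inductive GridR : List (V × Bool) → List (H × Bool) → Prop
  | nil (hs : List (H × Bool)) : GridR [] hs
  | cons {v : V × Bool} {vs : List (V × Bool)} {hs hs' : List (H × Bool)} (r : Row S v hs hs')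
      (q : GridR vs hs') : GridR (v :: vs) hs

lemma row_exists : ∀ (hs : List (H × Bool)) (g : Grp S) (v : V × Bool),
    S.GP hS (hs.map Sum.inl) g → S.First hS g (Sum.inr v) →
    ∃ hs', Row S v hs hs' ∧ S.GP hS (hs'.map Sum.inl) (S.lv (linv (Sum.inr v)) * g) := by
  intro hs
  induction hs with
  | nil => intro g v _ _; exact ⟨[], Row.nil v, trivial⟩
  | cons h hs ih =>
    intro g v hg hv
    have hh : S.First hS g (Sum.inl h) := hg.1
    obtain ⟨w, h', q, hw⟩ := first_hv S hS hh hv
    obtain ⟨hs', r, hr⟩ := ih _ w hg.2 hw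
    refine ⟨h' :: hs', Row.cons q r, ?_⟩
    have rel : S.lv (Sum.inl h : Ltr V H) * S.lv (Sum.inr w) =
      S.lv (Sum.inr v) * S.lv (Sum.inl h') := q.rel
    have e : S.lv (linv (Sum.inl h')) * (S.lv (linv (Sum.inr v)) * g) =
        S.lv (linv (Sum.inr w)) * (S.lv (linv (Sum.inl h)) * g) := by
      simp only [lv_linv]
      rw [← mul_assoc, ← mul_assoc, ← mul_inv_rev, ← mul_inv_rev, rel]
    refine ⟨?_, ?_⟩
    · have l1 := (first_iff S hS _ _).1 hh
      have l2 := (first_iff S hS _ _).1 hv
      have l3 := (first_iff S hS _ _).1 hw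
      rw [first_iff, e]
      omega
    · show S.GP hS (hs'.map Sum.inl) (S.lv (linv (Sum.inl h')) * (S.lv (linv (Sum.inr v)) * g))
      rw [e]
      exact hr

lemma grid_exists : ∀ (vs : List (V × Bool)) (hs : List (H × Bool)) (g : Grp S),
    S.GP hS (vs.map Sum.inr) g → S.GP hS (hs.map Sum.inl) g → GridR S vs hs := by
  intro vs
  induction vs with
  | nil => intro hs g _ _; exact GridR.nil hs
  | cons v vs ih =>
    intro hs g hv hh
    obtain ⟨hs', r, hr⟩ := row_exists S hS hs g v hh hv.1
    exact GridR.cons r (ih hs' _ hv.2 hr)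

lemma row_fun {v : V × Bool} {hs hs' : List (H × Bool)} (r : Row S v hs hs') :
    hs.length = hs'.length ∧ ∃ b : ℕ → V × Bool, b 0 = v ∧
      ∀ i (hi : i < hs.length) (hi' : i < hs'.length), Sq S (hs[i]) (b (i + 1)) (b i) (hs'[i]) := by
  induction r with
  | nil v => exact ⟨rfl, fun _ => v, rfl, by intro i hi; simp at hi⟩
  | @cons v w h h' hs hs' q r ih =>
    obtain ⟨h1, b, h2, h3⟩ := ih
    refine ⟨by simp [h1], fun i => match i with
      | 0 => v
      | i + 1 => b i, rfl, ?_⟩
    intro i hi hi'
    cases i with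
    | zero => simpa [h2] using q
    | succ i => simpa using h3 i (by simpa using hi) (by simpa using hi')

lemma grid_fun (v₀ : V × Bool) (h₀ : H × Bool) {vs : List (V × Bool)} {hs : List (H × Bool)}
    (r : GridR S vs hs) :
    ∃ (A : ℕ → ℕ → H × Bool) (B : ℕ → ℕ → V × Bool),
      (∀ i, A i 0 = hs.getD i h₀) ∧ (∀ j, B 0 j = vs.getD j v₀) ∧
      ∀ i j, i < hs.length → j < vs.length → Sq S (A i j) (B (i + 1) j) (B i j) (A i (j + 1)) := by
  induction r with
  | nil hs =>
    exact ⟨fun i _ => hs.getD i h₀, fun _ _ => v₀, fun _ => rfl, fun j => by simp,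
          by intro i j _ hj; simp at hj⟩
  | @cons v vs hs hs' r q ih =>
    obtain ⟨A, B, h1, h2, h3⟩ := ih
    obtain ⟨l1, b, b0, hb⟩ := row_fun S r
    refine ⟨fun i j => match j with
      | 0 => hs.getD i h₀
      | j + 1 => A i j, fun i j => match j with
      | 0 => b i
      | j + 1 => B i j, fun i => rfl, ?_, ?_⟩
    · intro j
      cases j with
      | zero => simp [b0]
      | succ j => simp [h2]
    · intro i j hi hj
      cases j with
      | zero =>
        have hi' : i < hs'.length := by omega
        have := hb i hi hi'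
        simpa [h1, List.getD_eq_getElem?_getD, hi, hi'] using this
      | succ j => exact h3 i j (by omega) (by simpa using hj)

/-- the folded patch of a grid with reduced bottom and left sides -/
lemma patch_of_grid (hS : S.Det) {A : ℕ → ℕ → H × Bool} {B : ℕ → ℕ → V × Bool} {n : ℕ} (hn : 0 < n)
    (hq : ∀ i j, i < n → j < n → Sq S (A i j) (B (i + 1) j) (B i j) (A i (j + 1)))
    (hA : ∀ i, i + 1 < n → A (i + 1) 0 ≠ inv' (A i 0))
    (hB : ∀ j, j + 1 < n → B 0 (j + 1) ≠ inv' (B 0 j)) :
    ∃ F ex ey, IsFoldedPatch S n F ex ey := by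
  have hA' : ∀ j, j < n → ∀ i, i + 1 < n → A (i + 1) j ≠ inv' (A i j) := by
    intro j
    induction j with
    | zero => intro _ i hi; exact hA i hi
    | succ j ih =>
      intro hj i hi e
      apply ih (by omega) i hi
      have r1 := (hq i j (by omega) (by omega)).s2
      have r2 := (hq (i + 1) j (by omega) (by omega)).s1.s2
      rw [e, inv'_inv'] at r2
      rw [(r1.det hS r2).2, inv'_inv']
  have hB' : ∀ i, i < n → ∀ j, j + 1 < n → B i (j + 1) ≠ inv' (B i j) := by
    intro i
    induction i with
    | zero => intro _ j hj; exact hB j hj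
    | succ i ih =>
      intro hi j hj e
      apply ih (by omega) j hj
      have r1 := (hq i j (by omega) (by omega)).s2
      have r2 := hq i (j + 1) (by omega) (by omega)
      rw [e] at r2
      exact (r1.det hS r2).1.symm
  have hex : ∀ j, j < n → ∀ i, i < n → (A i j).2 = (A i 0).2 := by
    intro j
    induction j with
    | zero => intro _ i _; rfl
    | succ j ih =>
      intro hj i hi
      rw [← ih (by omega) i hi]
      obtain ⟨t, ex, ey, e1, e2, e3, e4⟩ := hq i j hi (by omega)
      rw [e1, e4]
  have hey : ∀ i, i < n → ∀ j, j < n → (B i j).2 = (B 0 j).2 := by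
    intro i
    induction i with
    | zero => intro _ i _; rfl
    | succ i ih =>
      intro hi j hj
      rw [← ih (by omega) j hj]
      obtain ⟨t, ex, ey, e1, e2, e3, e4⟩ := hq i j (by omega) hj
      rw [e2, e3]
  have hF : ∀ i j, ∃ t : T, i < n → j < n → A i j = (S.dn (B 0 j).2 t, (A i 0).2) ∧
      B (i + 1) j = (S.rt (A i 0).2 t, (B 0 j).2) ∧ B i j = (S.lt (A i 0).2 t, (B 0 j).2) ∧
      A i (j + 1) = (S.up (B 0 j).2 t, (A i 0).2) := by
    intro i j
    by_cases h : i < n ∧ j < n
    · obtain ⟨t, ex, ey, e1, e2, e3, e4⟩ := hq i j h.1 h.2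
      have e5 : ex = (A i 0).2 := by rw [← hex j h.2 i h.1, e1]
      have e6 : ey = (B 0 j).2 := by rw [← hey i h.1 j h.2, e3]
      subst e5
      subst e6
      exact ⟨t, fun _ _ => ⟨e1, e2, e3, e4⟩⟩
    · obtain ⟨t, -⟩ := hq 0 0 hn hn
      exact ⟨t, fun h1 h2 => absurd ⟨h1, h2⟩ h⟩
  choose F hF using hF
  refine ⟨F, fun i => (A i 0).2, fun j => (B 0 j).2, ?_, ?_, ?_, ?_⟩
  · intro i j hi hj
    have h1 := (hF i j (by omega) hj).2.1
    have h2 := (hF (i + 1) j hi hj).2.2.1
    rw [h1] at h2
    exact (Prod.ext_iff.1 h2).1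
  · intro i j hi hj
    have h1 := (hF i j hi (by omega)).2.2.2
    have h2 := (hF i (j + 1) hi hj).1
    rw [h1] at h2
    exact (Prod.ext_iff.1 h2).1
  · intro i j hi hj hne e
    apply hA' j hj i hi
    have h1 := (hF i j (by omega) hj).1
    have h2 := (hF (i + 1) j hi hj).1
    rw [h2, h1, ← e]
    have : (A (i + 1) 0).2 = !(A i 0).2 := by
      revert hne
      cases (A i 0).2 <;> cases (A (i + 1) 0).2 <;> simp
    rw [this]
    rfl
  · intro i j hi hj hne e
    apply hB' i hi j hj
    have h1 := (hF i j hi (by omega)).2.2.1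
    have h2 := (hF i (j + 1) hi hj).2.2.1
    rw [h2, h1, ← e]
    have : (B 0 (j + 1)).2 = !(B 0 j).2 := by
      revert hne
      cases (B 0 j).2 <;> cases (B 0 (j + 1)).2 <;> simp
    rw [this]
    rfl

/-- geodesic words are reduced -/
lemma red_of_len : ∀ (w : List (Ltr V H)), S.len hS (S.pv w) = w.length → ∀ i (hi : i + 1 < w.length),
    w[i + 1] ≠ linv w[i] := by
  intro w
  induction w with
  | nil => intro _ i hi; simp at hi
  | cons x w ih =>
    intro h i hi e
    obtain ⟨h1, h2⟩ := gp_tail_len S hS h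
    cases i with
    | succ i =>
      simp only [List.getElem_cons_succ] at e
      exact ih h1 i (by simpa using hi) e
    | zero =>
      cases w with
      | nil => simp at hi
      | cons y w =>
        simp only [List.getElem_cons_succ, List.getElem_cons_zero] at e
        subst e
        have h3 : S.pv (x :: linv x :: w) = S.pv w := by
          simp
        rw [h3] at h
        have := len_pv_le S hS w
        simp at h
        omega

lemma word_hor : ∀ (w : List (Ltr V H)), (∀ y ∈ w, hz y = true) →
    ∃ hs : List (H × Bool), w = hs.map Sum.inl := by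
  intro w
  induction w with
  | nil => intro _; exact ⟨[], rfl⟩
  | cons x w ih =>
    intro h
    obtain ⟨hs, rfl⟩ := ih (fun y hy => h y (List.mem_cons_of_mem _ hy))
    have := h x (List.mem_cons_self ..)
    rcases x with x | x
    · exact ⟨x :: hs, rfl⟩
    · simp [hz] at this

lemma word_ver : ∀ (w : List (Ltr V H)), (∀ y ∈ w, hz y = false) →
    ∃ vs : List (V × Bool), w = vs.map Sum.inr := by
  intro w
  induction w with
  | nil => intro _; exact ⟨[], rfl⟩
  | cons x w ih =>
    intro h
    obtain ⟨hs, rfl⟩ := ih (fun y hy => h y (List.mem_cons_of_mem _ hy))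
    have := h x (List.mem_cons_self ..)
    rcases x with x | x
    · simp [hz] at this
    · exact ⟨x :: hs, rfl⟩

/-- two prefixes of the same length `n` without common first letter give a folded patch of size `n` -/
lemma patch_of_cop {p q g : Grp S} {n : ℕ} (hn : 0 < n) (hp : S.Pre hS p g) (hq : S.Pre hS q g)
    (lp : S.len hS p = n) (lq : S.len hS q = n) (hc : S.Cop hS p q) :
    ∃ F ex ey, IsFoldedPatch S n F ex ey := by
  -- it is enough to treat the case that the first letter of `p` is horizontal
  have main : ∀ (P Q : List (Ltr V H)), S.len hS (S.pv P) = n → S.len hS (S.pv Q) = n →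
      P.length = n → Q.length = n → S.GP hS P g → S.GP hS Q g → (∀ y ∈ P, hz y = true) →
      (∀ y ∈ Q, hz y = false) → ∃ F ex ey, IsFoldedPatch S n F ex ey := by
    intro P Q h1 h2 h3 h4 h5 h6 h7 h8
    obtain ⟨hs, rfl⟩ := word_hor P h7
    obtain ⟨vs, rfl⟩ := word_ver Q h8
    have hg := grid_exists S hS vs hs g h6 h5
    have l1 : hs.length = n := by simpa using h3
    have l2 : vs.length = n := by simpa using h4
    have r1 := red_of_len S hS _ (h1.trans h3.symm)
    have r2 := red_of_len S hS _ (h2.trans h4.symm)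
    obtain ⟨A, B, hA, hB, hAB⟩ := grid_fun S (vs[0]) (hs[0]) hg
    refine patch_of_grid S hS (A := A) (B := B) hn ?_ ?_ ?_
    · intro i j hi hj
      exact hAB i j (by omega) (by omega)
    · intro i hi e
      rw [hA, hA] at e
      have := r1 i (by simpa [l1] using hi)
      apply this
      have g1 : i < hs.length := by omega
      have g2 : i + 1 < hs.length := by omega
      rw [List.getElem_map, List.getElem_map]
      rw [List.getD_eq_getElem _ _ g1, List.getD_eq_getElem _ _ g2] at e
      rw [e]; rfl
    · intro i hi e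
      rw [hB, hB] at e
      have := r2 i (by simpa [l2] using hi)
      apply this
      have g1 : i < vs.length := by omega
      have g2 : i + 1 < vs.length := by omega
      rw [List.getElem_map, List.getElem_map]
      rw [List.getD_eq_getElem _ _ g1, List.getD_eq_getElem _ _ g2] at e
      rw [e]; rfl
  obtain ⟨P, rfl, hP⟩ := exists_word S hS p
  obtain ⟨Q, rfl, hQ⟩ := exists_word S hS q
  have gP := gp_of_pre S hS hP.symm hp
  have gQ := gp_of_pre S hS hQ.symm hq
  obtain ⟨x, hx⟩ := exists_first S hS (g := S.pv P) (by omega)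
  obtain ⟨y, hy⟩ := exists_first S hS (g := S.pv Q) (by omega)
  have hxg : S.First hS g x := by
    rw [← pre_iff_first] at hx ⊢
    exact pre_trans S hS hx hp
  have hyg : S.First hS g y := by
    rw [← pre_iff_first] at hy ⊢
    exact pre_trans S hS hy hq
  have k1 := strip S hS Q g x hxg gQ (hc x hx)
  have k2 := strip S hS P g y hyg gP (fun h => hc y h hy)
  have hxy : hz x ≠ hz y := by
    intro h
    have := first_same S hS hxg hyg h
    subst this
    exact hc x hx hy
  rcases hzx : hz x with _ | _
  · have hzy : hz y = true := by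
      revert hxy; rw [hzx]; cases hz y <;> simp
    refine main Q P lq lp (by omega) (by omega) gQ gP ?_ ?_
    · intro z hz'
      have := k1 z hz'
      rw [hzx] at this
      simpa using this
    · intro z hz'
      have := k2 z hz'
      rw [hzy] at this
      simpa using this
  · have hzy : hz y = false := by
      revert hxy; rw [hzx]; cases hz y <;> simp
    refine main P Q lp lq (by omega) (by omega) gP gQ ?_ ?_
    · intro z hz'
      have := k2 z hz'
      rw [hzy] at this
      simpa using this
    · intro z hz'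
      have := k1 z hz'
      rw [hzx] at this
      simpa using this

/-- bigons: two prefixes of the same length are close to each other, or there is a large folded patch -/
lemma bigon {p q g : Grp S} (hp : S.Pre hS p g) (hq : S.Pre hS q g)
    (l : S.len hS p = S.len hS q) :
    ∃ e : ℕ, S.len hS (p⁻¹ * q) = 2 * e ∧ (0 < e → ∃ F ex ey, IsFoldedPatch S e F ex ey) := by
  obtain ⟨m, h1, h2, h3⟩ := exists_gcd S hS _ p q rfl
  have h4 := len_of_cop S hS _ _ _ rfl h3
  have e1 : (m⁻¹ * p)⁻¹ * (m⁻¹ * q) = p⁻¹ * q := by group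
  rw [e1] at h4
  have h5 : S.len hS (m⁻¹ * p) = S.len hS (m⁻¹ * q) := by
    unfold Tiles.Pre at h1 h2
    omega
  refine ⟨S.len hS (m⁻¹ * p), by omega, fun hpos => ?_⟩
  exact patch_of_cop S hS hpos (pre_left S hS h1 hp) (pre_left S hS h2 hq) rfl h5.symm h3

end

end Pool.Agent.VHG
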