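import Pool.Agent.VHG.Rw

/-!
# The normal form of an element of the group of a deterministic tile set, and its length
-/

set_option autoImplicit false
set_option linter.unusedSectionVars false

namespace Pool.Agent.VHG

open Classical in
/-- the system of squares of a deterministic tile set -/
noncomputable def Tiles.sys {T V H : Type} (S : Tiles T V H) (hS : S.Det) :
    SqSys (H × Bool) (V × Bool) where
  ia := inv'
  ib := inv'
  ia_ia := inv'_inv'
  ib_ib := inv'_inv'
  ia_ne := inv'_ne
  ib_ne := inv'_ne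
  sq h v := if e : ∃ p : (V × Bool) × (H × Bool), Sq S h v p.1 p.2 then some e.choose else none
  s1 := by
    intro h v v' h' e
    split at e
    · rename_i ex
      have hc := ex.choose_spec
      rw [Option.some.inj e] at hc
      have hc1 : Sq S (inv' h) v' v (inv' h') := hc.s1
      have ex' : ∃ p : (V × Bool) × (H × Bool), Sq S (inv' h) v' p.1 p.2 := ⟨(v, inv' h'), hc1⟩
      rw [dif_pos ex']
      have h2 := hc1.det hS ex'.choose_spec
      rw [← Prod.mk.eta (p := ex'.choose), ← h2.1, ← h2.2]
    · simp at e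
  s2 := by
    intro h v v' h' e
    split at e
    · rename_i ex
      have hc := ex.choose_spec
      rw [Option.some.inj e] at hc
      have hc1 : Sq S h' (inv' v) (inv' v') h := hc.s2
      have ex' : ∃ p : (V × Bool) × (H × Bool), Sq S h' (inv' v) p.1 p.2 := ⟨(inv' v', h), hc1⟩
      rw [dif_pos ex']
      have h2 := hc1.det hS ex'.choose_spec
      rw [← Prod.mk.eta (p := ex'.choose), ← h2.1, ← h2.2]
    · simp at e

lemma Tiles.sys_sq {T V H : Type} (S : Tiles T V H) (hS : S.Det) {h : H × Bool} {v v' : V × Bool}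
    {h' : H × Bool} : (S.sys hS).sq h v = some (v', h') ↔ Sq S h v v' h' := by
  classical
  constructor
  · intro e
    simp only [Tiles.sys] at e
    split at e
    · rename_i ex
      have hc := ex.choose_spec
      rw [Option.some.inj e] at hc
      exact hc
    · simp at e
  · intro q
    have ex' : ∃ p : (V × Bool) × (H × Bool), Sq S h v p.1 p.2 := ⟨(v', h'), q⟩
    simp only [Tiles.sys]
    rw [dif_pos ex']
    have h2 := q.det hS ex'.choose_spec
    rw [← Prod.mk.eta (p := ex'.choose), ← h2.1, ← h2.2]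

section

open Classical

variable {T V H : Type} (S : Tiles T V H) (hS : S.Det)

/-- normal form words -/
abbrev Tiles.W : Type := {w : List ((H × Bool) ⊕ (V × Bool)) // (S.sys hS).NF w}

/-- right multiplication by a horizontal letter as a permutation of the normal forms -/
noncomputable def Tiles.pA (h : H × Bool) : Equiv.Perm (S.W hS) where
  toFun w := ⟨(S.sys hS).mulA h w.1, (S.sys hS).nf_mulA w.2⟩
  invFun w := ⟨(S.sys hS).mulA (inv' h) w.1, (S.sys hS).nf_mulA w.2⟩
  left_inv w := Subtype.ext ((S.sys hS).mulA_inv w.2)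
  right_inv w := Subtype.ext (by
    have := (S.sys hS).mulA_inv (h := inv' h) w.2
    have e : (S.sys hS).ia (inv' h) = h := inv'_inv' h
    rw [e] at this
    exact this)

noncomputable def Tiles.pB (v : V × Bool) : Equiv.Perm (S.W hS) where
  toFun w := ⟨(S.sys hS).mulB v w.1, (S.sys hS).nf_mulB w.2⟩
  invFun w := ⟨(S.sys hS).mulB (inv' v) w.1, (S.sys hS).nf_mulB w.2⟩
  left_inv w := Subtype.ext ((S.sys hS).mulB_inv w.2)
  right_inv w := Subtype.ext (by
    have := (S.sys hS).mulB_inv (v := inv' v) w.2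
    have e : (S.sys hS).ib (inv' v) = v := inv'_inv' v
    rw [e] at this
    exact this)

/-- the right action on normal forms -/
noncomputable def Tiles.act : Grp S →* (Equiv.Perm (S.W hS))ᵐᵒᵖ :=
  PresentedGroup.toGroup (f := Sum.elim (fun v => MulOpposite.op (S.pB hS (v, true)))
    (fun h => MulOpposite.op (S.pA hS (h, true)))) (by
    rintro _ ⟨t, rfl⟩
    simp only [map_mul, map_inv, FreeGroup.lift_apply_of, Sum.elim_inl, Sum.elim_inr]
    rw [mul_inv_eq_one, ← MulOpposite.op_mul, ← MulOpposite.op_mul]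
    congr 1
    ext1 w
    apply Subtype.ext
    show (S.sys hS).mulA (S.U t, true) ((S.sys hS).mulB (S.L t, true) w.1) =
      (S.sys hS).mulB (S.R t, true) ((S.sys hS).mulA (S.B t, true) w.1)
    have q : Sq S (S.B t, true) (S.R t, true) (S.L t, true) (S.U t, true) := ⟨t, true, true, rfl, rfl, rfl, rfl⟩
    exact ((S.sys hS).mul_rel ((S.sys_sq hS).2 q) w.2).symm)

/-- letters of the group -/
abbrev Ltr (V H : Type) : Type := (H × Bool) ⊕ (V × Bool)

/-- inverse letter -/
def linv : Ltr V H → Ltr V H
  | Sum.inl h => Sum.inl (inv' h)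
  | Sum.inr v => Sum.inr (inv' v)

@[simp] lemma linv_linv (x : Ltr V H) : linv (linv x) = x := by
  rcases x with x | x <;> simp [linv]

lemma linv_ne (x : Ltr V H) : linv x ≠ x := by
  rcases x with x | x
  · intro h; exact inv'_ne x (Sum.inl.inj h)
  · intro h; exact inv'_ne x (Sum.inr.inj h)

/-- value of a letter in the group -/
def Tiles.lv : Ltr V H → Grp S
  | Sum.inl h => val S.gh h
  | Sum.inr v => val S.gv v

@[simp] lemma lv_linv (x : Ltr V H) : S.lv (linv x) = (S.lv x)⁻¹ := by
  rcases x with x | x <;> simp [linv, Tiles.lv]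

/-- the permutation of a letter -/
noncomputable def Tiles.pL : Ltr V H → Equiv.Perm (S.W hS)
  | Sum.inl h => S.pA hS h
  | Sum.inr v => S.pB hS v

lemma act_lv (x : Ltr V H) : S.act hS (S.lv x) = MulOpposite.op (S.pL hS x) := by
  rcases x with ⟨h, b⟩ | ⟨v, b⟩
  · have h1 : S.act hS (S.gh h) = MulOpposite.op (S.pA hS (h, true)) := by
      simp [Tiles.act, Tiles.gh]
    cases b
    · show S.act hS ((S.gh h)⁻¹) = _
      rw [map_inv, h1, ← MulOpposite.op_inv]
      rfl
    · exact h1
  · have h1 : S.act hS (S.gv v) = MulOpposite.op (S.pB hS (v, true)) := by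
      simp [Tiles.act, Tiles.gv]
    cases b
    · show S.act hS ((S.gv v)⁻¹) = _
      rw [map_inv, h1, ← MulOpposite.op_inv]
      rfl
    · exact h1

/-- the normal form -/
noncomputable def Tiles.nf (g : Grp S) : S.W hS := (S.act hS g).unop ⟨[], (S.sys hS).nf_nil⟩

lemma nf_mul (g : Grp S) (x : Ltr V H) : S.nf hS (g * S.lv x) = S.pL hS x (S.nf hS g) := by
  rw [Tiles.nf, map_mul, act_lv]
  rfl

/-- evaluation of a word (written from right to left) -/
def Tiles.ev : List (Ltr V H) → Grp S
  | [] => 1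
  | x :: w => Tiles.ev w * S.lv x

lemma pL_cons {x : Ltr V H} {w : List (Ltr V H)} (hw : (S.sys hS).NF (x :: w)) :
    (S.pL hS x ⟨w, (S.sys hS).nf_tail hw⟩).1 = x :: w := by
  rcases x with h | v
  · exact (S.sys hS).mulA_cons hw
  · exact (S.sys hS).mulB_cons hw

lemma nf_ev : ∀ (w : List (Ltr V H)) (hw : (S.sys hS).NF w), S.nf hS (S.ev w) = ⟨w, hw⟩
  | [], hw => by
    simp [Tiles.ev, Tiles.nf]
  | x :: w, hw => by
    rw [Tiles.ev, nf_mul, nf_ev w ((S.sys hS).nf_tail hw)]
    exact Subtype.ext (pL_cons S hS hw)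

lemma ev_mulA (h : H × Bool) (w : List (Ltr V H)) :
    S.ev ((S.sys hS).mulA h w) = S.ev w * val S.gh h := by
  cases w with
  | nil => rfl
  | cons y w =>
    cases y with
    | inl k =>
      by_cases hk : k = (S.sys hS).ia h
      · have hk' : k = inv' h := hk
        simp only [SqSys.mulA, hk, if_true]
        have h2 : S.ev (Sum.inl ((S.sys hS).ia h) :: w) = S.ev w * (val S.gh h)⁻¹ := by
          show S.ev w * S.lv (Sum.inl (inv' h)) = _
          simp [Tiles.lv]
        rw [h2]; simp
      · simp only [SqSys.mulA, hk, if_false]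
        rfl
    | inr u => rfl

lemma ev_mulB (w : List (Ltr V H)) : ∀ v : V × Bool,
    S.ev ((S.sys hS).mulB v w) = S.ev w * val S.gv v := by
  induction w with
  | nil => intro v; rfl
  | cons y w ih =>
    intro v
    cases y with
    | inl h =>
      rcases hs : (S.sys hS).sq h v with _ | ⟨v', h'⟩
      · rw [(S.sys hS).mulB_none hs]; rfl
      · rw [(S.sys hS).mulB_some hs]
        show S.ev ((S.sys hS).mulB v' w) * val S.gh h' = (S.ev w * val S.gh h) * val S.gv v
        rw [ih, mul_assoc, mul_assoc, ((S.sys_sq hS).1 hs).rel]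
    | inr u =>
      by_cases hu : u = (S.sys hS).ib v
      · simp only [SqSys.mulB, hu, if_true]
        have h2 : S.ev (Sum.inr ((S.sys hS).ib v) :: w) = S.ev w * (val S.gv v)⁻¹ := by
          show S.ev w * S.lv (Sum.inr (inv' v)) = _
          simp [Tiles.lv]
        rw [h2]; simp
      · simp only [SqSys.mulB, hu, if_false]
        rfl

lemma ev_pL (x : Ltr V H) (w : S.W hS) : S.ev (S.pL hS x w).1 = S.ev w.1 * S.lv x := by
  rcases x with h | v
  · exact ev_mulA S hS h w.1
  · exact ev_mulB S hS w.1 v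

/-- induction on the group: multiplication on the right by letters -/
lemma letter_induction {P : Grp S → Prop} (h1 : P 1)
    (hm : ∀ g (x : Ltr V H), P g → P (g * S.lv x)) (g : Grp S) : P g := by
  obtain ⟨f, rfl⟩ := PresentedGroup.mk_surjective S.rels g
  have key : ∀ f : FreeGroup (V ⊕ H), ∀ g : Grp S, P g → P (g * PresentedGroup.mk S.rels f) := by
    intro f
    induction f using FreeGroup.induction_on with
    | C1 => intro g hg; simpa using hg
    | of a =>
      intro g hg
      rcases a with v | h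
      · exact hm g (Sum.inr (v, true)) hg
      · exact hm g (Sum.inl (h, true)) hg
    | inv_of a _ =>
      intro g hg
      rcases a with v | h
      · have := hm g (Sum.inr (v, false)) hg
        rw [map_inv]
        exact this
      · have := hm g (Sum.inl (h, false)) hg
        rw [map_inv]
        exact this
    | mul a b ha hb =>
      intro g hg
      rw [map_mul, ← mul_assoc]
      exact hb _ (ha _ hg)
  simpa using key f 1 h1

lemma ev_nf (g : Grp S) : S.ev (S.nf hS g).1 = g := by
  induction g using letter_induction with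
  | h1 => simp [Tiles.nf, Tiles.ev]
  | hm g x ih => rw [nf_mul, ev_pL, ih]

/-- length of an element -/
noncomputable def Tiles.len (g : Grp S) : ℕ := (S.nf hS g).1.length

lemma len_one : S.len hS 1 = 0 := by simp [Tiles.len, Tiles.nf]

lemma len_mul (g : Grp S) (x : Ltr V H) :
    S.len hS (g * S.lv x) = S.len hS g + 1 ∨ S.len hS (g * S.lv x) + 1 = S.len hS g := by
  rw [Tiles.len, nf_mul]
  rcases x with h | v
  · exact (S.sys hS).length_mulA h _
  · exact (S.sys hS).length_mulB _ v

lemma eq_one_of_len {g : Grp S} (h : S.len hS g = 0) : g = 1 := by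
  have h1 : (S.nf hS g).1 = [] := List.eq_nil_of_length_eq_zero h
  rw [← ev_nf S hS g, h1]
  rfl

lemma len_ev_le (w : List (Ltr V H)) : S.len hS (S.ev w) ≤ w.length := by
  induction w with
  | nil => simp [Tiles.ev, len_one]
  | cons x w ih =>
    have := len_mul S hS (S.ev w) x
    show S.len hS (S.ev w * S.lv x) ≤ _
    simp only [List.length_cons]
    omega

/-- inverse word -/
def winv (w : List (Ltr V H)) : List (Ltr V H) := (w.map linv).reverse

lemma ev_append (w w' : List (Ltr V H)) : S.ev (w ++ w') = S.ev w' * S.ev w := by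
  induction w with
  | nil => simp [Tiles.ev]
  | cons x w ih =>
    show S.ev (w ++ w') * S.lv x = S.ev w' * (S.ev w * S.lv x)
    rw [ih, mul_assoc]

lemma ev_winv (w : List (Ltr V H)) : S.ev (winv w) = (S.ev w)⁻¹ := by
  induction w with
  | nil => simp [winv, Tiles.ev]
  | cons x w ih =>
    have : winv (x :: w) = winv w ++ [linv x] := by simp [winv]
    rw [this, ev_append, ih]
    show (1 * S.lv (linv x)) * (S.ev w)⁻¹ = (S.ev w * S.lv x)⁻¹
    rw [lv_linv]; simp

lemma len_inv (g : Grp S) : S.len hS g⁻¹ = S.len hS g := by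
  have key : ∀ g : Grp S, S.len hS g⁻¹ ≤ S.len hS g := by
    intro g
    have h1 : g⁻¹ = S.ev (winv (S.nf hS g).1) := by rw [ev_winv, ev_nf]
    rw [h1]
    refine (len_ev_le S hS _).trans ?_
    simp [winv, Tiles.len]
  apply le_antisymm (key g)
  simpa using key g⁻¹

lemma len_mul_le (g k : Grp S) : S.len hS (g * k) ≤ S.len hS g + S.len hS k := by
  have h1 : g * k = S.ev ((S.nf hS k).1 ++ (S.nf hS g).1) := by
    rw [ev_append, ev_nf, ev_nf]
  rw [h1]
  refine (len_ev_le S hS _).trans ?_
  simp [Tiles.len, add_comm]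

lemma len_lv (x : Ltr V H) : S.len hS (S.lv x) = 1 := by
  have h := len_mul S hS 1 x
  rw [one_mul, len_one] at h
  omega

/-- `x` is a last letter of `g` -/
def Tiles.Last (g : Grp S) (x : Ltr V H) : Prop := S.len hS (g * S.lv (linv x)) < S.len hS g

/-- `x` is a first letter of `g` -/
def Tiles.First (g : Grp S) (x : Ltr V H) : Prop := S.len hS (S.lv (linv x) * g) < S.len hS g

lemma len_mul_left (g : Grp S) (x : Ltr V H) :
    S.len hS (S.lv x * g) = S.len hS g + 1 ∨ S.len hS (S.lv x * g) + 1 = S.len hS g := by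
  have h := len_mul S hS g⁻¹ (linv x)
  rw [len_inv] at h
  have e : g⁻¹ * S.lv (linv x) = (S.lv x * g)⁻¹ := by rw [lv_linv]; simp
  rw [e, len_inv] at h
  exact h

lemma first_iff_last (g : Grp S) (x : Ltr V H) : S.First hS g x ↔ S.Last hS g⁻¹ (linv x) := by
  unfold Tiles.First Tiles.Last
  have e : g⁻¹ * S.lv (linv (linv x)) = (S.lv (linv x) * g)⁻¹ := by simp
  rw [e, len_inv, len_inv]

lemma last_hh {g : Grp S} {h k : H × Bool} (h1 : S.Last hS g (Sum.inl h))
    (h2 : S.Last hS g (Sum.inl k)) : h = k := by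
  unfold Tiles.Last Tiles.len at h1 h2
  rw [nf_mul] at h1 h2
  exact (S.sys hS).last_AA h1 h2

lemma last_vv {g : Grp S} {h k : V × Bool} (h1 : S.Last hS g (Sum.inr h))
    (h2 : S.Last hS g (Sum.inr k)) : h = k := by
  unfold Tiles.Last Tiles.len at h1 h2
  rw [nf_mul] at h1 h2
  exact (S.sys hS).last_BB h1 h2

/-- quadrangle property -/
lemma last_hv {g : Grp S} {h : H × Bool} {v : V × Bool} (h1 : S.Last hS g (Sum.inl h))
    (h2 : S.Last hS g (Sum.inr v)) :
    ∃ (u : V × Bool) (h' : H × Bool), Sq S h' v u h ∧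
      S.Last hS (g * S.lv (linv (Sum.inl h))) (Sum.inr u) := by
  unfold Tiles.Last Tiles.len at h1 h2
  rw [nf_mul] at h1 h2
  obtain ⟨w', u, h', e1, e2, e3⟩ := (S.sys hS).last_AB (S.nf hS g).2 h1 h2
  refine ⟨u, h', (S.sys_sq hS).1 e2, ?_⟩
  have hw' : (S.sys hS).NF w' := by
    have := (S.nf hS g).2
    rw [e1] at this
    exact (S.sys hS).nf_tail this
  have e4 : S.nf hS (g * S.lv (linv (Sum.inl h))) = ⟨w', hw'⟩ := by
    have h5 : g = S.ev w' * S.lv (Sum.inl h) := by
      rw [← ev_nf S hS g, e1]
      rfl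
    rw [h5, lv_linv, mul_inv_cancel_right, nf_ev]
  unfold Tiles.Last Tiles.len
  rw [nf_mul, e4]
  exact e3

/-- first letters: quadrangle property. If `h` and `v` are first letters of `g` there is a square
`h * v₁ = v * h₁`, and `h * v₁` is a prefix of length two. -/
lemma first_hv {g : Grp S} {h : H × Bool} {v : V × Bool} (h1 : S.First hS g (Sum.inl h))
    (h2 : S.First hS g (Sum.inr v)) :
    ∃ (v₁ : V × Bool) (h₁ : H × Bool), Sq S h v₁ v h₁ ∧
      S.First hS (S.lv (linv (Sum.inl h)) * g) (Sum.inr v₁) := by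
  rw [first_iff_last] at h1 h2
  obtain ⟨u, h', q, hl⟩ := last_hv S hS h1 h2
  refine ⟨inv' u, inv' h', ?_, ?_⟩
  · have := q.s1.s2
    simpa using this
  · rw [first_iff_last]
    have e : (S.lv (linv (Sum.inl h)) * g)⁻¹ = g⁻¹ * S.lv (linv (Sum.inl (inv' h))) := by
      rw [lv_linv]
      have : (linv (Sum.inl (inv' h)) : Ltr V H) = Sum.inl h := by simp [linv]
      rw [this]; simp
    rw [e]
    have e2 : (linv (Sum.inr (inv' u)) : Ltr V H) = Sum.inr u := by simp [linv]
    rw [e2]
    exact hl

lemma first_hh {g : Grp S} {h k : H × Bool} (h1 : S.First hS g (Sum.inl h))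
    (h2 : S.First hS g (Sum.inl k)) : h = k := by
  rw [first_iff_last] at h1 h2
  have := last_hh S hS h1 h2
  rw [← inv'_inv' h, this, inv'_inv']

lemma first_vv {g : Grp S} {h k : V × Bool} (h1 : S.First hS g (Sum.inr h))
    (h2 : S.First hS g (Sum.inr k)) : h = k := by
  rw [first_iff_last] at h1 h2
  have := last_vv S hS h1 h2
  rw [← inv'_inv' h, this, inv'_inv']

/-- Two different first letters of `g`, one continues the other to a common prefix -/
lemma first_quad {g : Grp S} {x y : Ltr V H} (hxy : x ≠ y) (h1 : S.First hS g x)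
    (h2 : S.First hS g y) : ∃ c d : Ltr V H, S.lv x * S.lv c = S.lv y * S.lv d ∧
      S.First hS (S.lv (linv x) * g) c := by
  rcases x with h | v <;> rcases y with k | u
  · exact absurd (by rw [first_hh S hS h1 h2]) hxy
  · obtain ⟨v₁, h₁, q, hf⟩ := first_hv S hS h1 h2
    exact ⟨Sum.inr v₁, Sum.inl h₁, q.rel, hf⟩
  · obtain ⟨v₁, h₁, q, hf⟩ := first_hv S hS h2 h1
    refine ⟨Sum.inl h₁, Sum.inr v₁, q.rel.symm, ?_⟩
    -- length of the prefix `k v₁ = v h₁` is two
    have e : S.lv (linv (Sum.inl h₁)) * (S.lv (linv (Sum.inr v)) * g) =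
        S.lv (linv (Sum.inr v₁)) * (S.lv (linv (Sum.inl k)) * g) := by
      simp only [lv_linv]
      rw [← mul_assoc, ← mul_assoc, ← mul_inv_rev, ← mul_inv_rev]
      have : S.lv (Sum.inl k : Ltr V H) * S.lv (Sum.inr v₁) = S.lv (Sum.inr v) * S.lv (Sum.inl h₁) := q.rel
      rw [this]
    unfold Tiles.First at *
    rw [e]
    have l1 := len_mul_left S hS g (linv (Sum.inr v))
    have l2 := len_mul_left S hS g (linv (Sum.inl k))
    omega
  · exact absurd (by rw [first_vv S hS h1 h2]) hxy

end

end Pool.Agent.VHG
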