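import Pool.Agent.VHG.Len

/-!
# Prefixes, common prefixes and medians
-/

set_option autoImplicit false
set_option linter.unusedSectionVars false

namespace Pool.Agent.VHG

section

open Classical

variable {T V H : Type} (S : Tiles T V H) (hS : S.Det)

lemma first_iff (g : Grp S) (x : Ltr V H) :
    S.First hS g x ↔ S.len hS (S.lv (linv x) * g) + 1 = S.len hS g := by
  have := len_mul_left S hS g (linv x)
  unfold Tiles.First
  omega

lemma exists_last {g : Grp S} (h : S.len hS g ≠ 0) : ∃ x : Ltr V H, S.Last hS g x := by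
  rcases hw : (S.nf hS g).1 with _ | ⟨x, w⟩
  · exact absurd (by simp [Tiles.len, hw]) h
  · refine ⟨x, ?_⟩
    have e : g = S.ev w * S.lv x := by
      rw [← ev_nf S hS g, hw]; rfl
    have e2 : S.len hS g = w.length + 1 := by simp [Tiles.len, hw]
    unfold Tiles.Last
    rw [e2, e, lv_linv, mul_inv_cancel_right]
    have := len_ev_le S hS w
    omega

lemma exists_first {g : Grp S} (h : S.len hS g ≠ 0) : ∃ x : Ltr V H, S.First hS g x := by
  have h' : S.len hS g⁻¹ ≠ 0 := by rwa [len_inv]
  obtain ⟨x, hx⟩ := exists_last S hS h'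
  refine ⟨linv x, ?_⟩
  rw [first_iff_last, linv_linv]
  exact hx

lemma len_inv_mul_comm (g k : Grp S) : S.len hS (g⁻¹ * k) = S.len hS (k⁻¹ * g) := by
  rw [← len_inv S hS (g⁻¹ * k)]
  congr 1
  group

/-- elements without a common first letter -/
def Tiles.Cop (x y : Grp S) : Prop := ∀ c : Ltr V H, S.First hS x c → ¬ S.First hS y c

/-- without common first letter the lengths add -/
lemma len_of_cop : ∀ (n : ℕ) (x y : Grp S), S.len hS y = n → S.Cop hS x y →
    S.len hS (x⁻¹ * y) = S.len hS x + n := by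
  intro n
  induction n with
  | zero =>
    intro x y hy _
    rw [eq_one_of_len S hS hy, mul_one, len_inv, add_zero]
  | succ n ih =>
    intro x y hy hc
    obtain ⟨z, hz⟩ := exists_first S hS (g := y) (by omega)
    have hz1 := (first_iff S hS y z).1 hz
    have hxz : S.len hS (S.lv (linv z) * x) = S.len hS x + 1 := by
      rcases len_mul_left S hS x (linv z) with h | h
      · exact h
      · exact absurd hz (hc z ((first_iff S hS x z).2 h))
    have key : S.Cop hS (S.lv (linv z) * x) (S.lv (linv z) * y) := by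
      intro w hw1 hw2
      have hw1' := (first_iff S hS _ w).1 hw1
      have hw2' := (first_iff S hS _ w).1 hw2
      -- `w ≠ z⁻¹`
      have hne : linv z ≠ w := by
        rintro rfl
        rw [linv_linv] at hw2'
        have : S.lv z * (S.lv (linv z) * y) = y := by rw [lv_linv]; group
        rw [this] at hw2'
        omega
      have hzf : S.First hS (S.lv (linv z) * x) (linv z) := by
        rw [first_iff, linv_linv]
        have : S.lv z * (S.lv (linv z) * x) = x := by rw [lv_linv]; group
        rw [this]; exact hxz.symm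
      obtain ⟨c, d, hcd, hcf⟩ := first_quad S hS hne hzf hw1
      rw [linv_linv] at hcf
      have e1 : S.lv z * (S.lv (linv z) * x) = x := by rw [lv_linv]; group
      rw [e1] at hcf
      apply hc c hcf
      unfold Tiles.First
      have e2 : S.lv (linv c) * y = S.lv (linv d) * (S.lv (linv w) * (S.lv (linv z) * y)) := by
        have : S.lv c = S.lv z * (S.lv w * S.lv d) := by
          rw [← hcd, lv_linv]; group
        rw [lv_linv, this]
        simp only [lv_linv]
        group
      rw [e2]
      have := len_mul_left S hS (S.lv (linv w) * (S.lv (linv z) * y)) (linv d)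
      omega
    have h1 := ih (S.lv (linv z) * x) (S.lv (linv z) * y) (by omega) key
    have e : (S.lv (linv z) * x)⁻¹ * (S.lv (linv z) * y) = x⁻¹ * y := by group
    rw [e, hxz] at h1
    omega

/-- `p` is a prefix of `g` -/
def Tiles.Pre (p g : Grp S) : Prop := S.len hS p + S.len hS (p⁻¹ * g) = S.len hS g

lemma pre_one (g : Grp S) : S.Pre hS 1 g := by
  unfold Tiles.Pre
  rw [len_one]; simp

lemma pre_iff_first (g : Grp S) (x : Ltr V H) : S.Pre hS (S.lv x) g ↔ S.First hS g x := by
  unfold Tiles.Pre
  rw [first_iff, len_lv, lv_linv]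
  omega

lemma pre_trans {p q g : Grp S} (h1 : S.Pre hS p q) (h2 : S.Pre hS q g) : S.Pre hS p g := by
  unfold Tiles.Pre at *
  have h3 := len_mul_le S hS p (p⁻¹ * g)
  have h4 := len_mul_le S hS (p⁻¹ * q) (q⁻¹ * g)
  have e1 : p * (p⁻¹ * g) = g := by group
  have e2 : p⁻¹ * q * (q⁻¹ * g) = p⁻¹ * g := by group
  rw [e1] at h3
  rw [e2] at h4
  omega

/-- if `p`, `q` are prefixes of `g` and `m` is a prefix of `p` then `m⁻¹ p` is a prefix of `m⁻¹ g` -/
lemma pre_left {m p g : Grp S} (h1 : S.Pre hS m p) (h2 : S.Pre hS p g) :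
    S.Pre hS (m⁻¹ * p) (m⁻¹ * g) := by
  have h3 := pre_trans S hS h1 h2
  unfold Tiles.Pre at *
  have e : (m⁻¹ * p)⁻¹ * (m⁻¹ * g) = p⁻¹ * g := by group
  rw [e]
  omega

lemma exists_gcd : ∀ (n : ℕ) (a b : Grp S), S.len hS a = n →
    ∃ m, S.Pre hS m a ∧ S.Pre hS m b ∧ S.Cop hS (m⁻¹ * a) (m⁻¹ * b) := by
  intro n
  induction n with
  | zero =>
    intro a b ha
    refine ⟨1, pre_one S hS a, pre_one S hS b, ?_⟩
    intro c hc
    have := (first_iff S hS _ c).1 hc
    simp only [inv_one, one_mul] at this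
    omega
  | succ n ih =>
    intro a b ha
    by_cases hc : S.Cop hS a b
    · exact ⟨1, pre_one S hS a, pre_one S hS b, by simpa using hc⟩
    · unfold Tiles.Cop at hc
      push Not at hc
      obtain ⟨c, hca, hcb⟩ := hc
      have ha1 := (first_iff S hS a c).1 hca
      have hb1 := (first_iff S hS b c).1 hcb
      obtain ⟨m, h1, h2, h3⟩ := ih (S.lv (linv c) * a) (S.lv (linv c) * b) (by omega)
      have hm : ∀ g : Grp S, S.len hS (S.lv (linv c) * g) + 1 = S.len hS g →
          S.Pre hS m (S.lv (linv c) * g) → S.Pre hS (S.lv c * m) g := by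
        intro g hg hp
        unfold Tiles.Pre at *
        have e1 : (S.lv c * m)⁻¹ * g = m⁻¹ * (S.lv (linv c) * g) := by rw [lv_linv]; group
        have h4 := len_mul_le S hS (S.lv c * m) ((S.lv c * m)⁻¹ * g)
        have e2 : (S.lv c * m) * ((S.lv c * m)⁻¹ * g) = g := by group
        rw [e2] at h4
        have h5 := len_mul_le S hS (S.lv c) m
        rw [len_lv] at h5
        rw [e1] at h4 ⊢
        omega
      refine ⟨S.lv c * m, hm a ha1 h1, hm b hb1 h2, ?_⟩
      have e : ∀ g : Grp S, (S.lv c * m)⁻¹ * g = m⁻¹ * (S.lv (linv c) * g) := by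
        intro g; rw [lv_linv]; group
      rw [e, e]
      exact h3

/-- medians: `m` is on geodesics between any two of `1`, `a`, `b` -/
lemma exists_median (a b : Grp S) : ∃ m, S.Pre hS m a ∧ S.Pre hS m b ∧
    S.len hS (a⁻¹ * b) = S.len hS (m⁻¹ * a) + S.len hS (m⁻¹ * b) := by
  obtain ⟨m, h1, h2, h3⟩ := exists_gcd S hS _ a b rfl
  refine ⟨m, h1, h2, ?_⟩
  have := len_of_cop S hS _ _ _ rfl h3
  rw [← this]
  congr 1
  group

end

end Pool.Agent.VHG
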