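import Pool.Agent.VHG.Geom

/-!
# Finite presentations as inputs of algorithms, and the decision problem

Definitions used in the statement of the undecidability theorem.
-/

set_option autoImplicit false

namespace Pool.Agent.VHG

/-! ### presentations -/

/-- a finite presentation: the number `n` of generators `0, ..., n-1` and the list of relators; a relator is
a list of letters `(i, true)` (the generator `i`), `(i, false)` (its inverse) -/
abbrev PresData : Type := ℕ × List (List (ℕ × Bool))

/-- all the letters of the relators are generators or their inverses -/
def WellFormed (P : PresData) : Prop := ∀ w ∈ P.2, ∀ a ∈ w, a.1 < P.1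

/-- the element of the free group of a word (letters outside the alphabet are ignored) -/
def relWord (n : ℕ) (w : List (ℕ × Bool)) : FreeGroup (Fin n) :=
  (w.map fun a => if h : a.1 < n then
    (if a.2 then FreeGroup.of ⟨a.1, h⟩ else (FreeGroup.of ⟨a.1, h⟩)⁻¹) else 1).prod

/-- the relators of a presentation -/
def presRels (P : PresData) : Set (FreeGroup (Fin P.1)) := {r | ∃ w ∈ P.2, r = relWord P.1 w}

/-- the group defined by a presentation -/
abbrev PresGroup (P : PresData) : Type := PresentedGroup (presRels P)

/-- the generators of a presentation -/
def presGen (P : PresData) : Fin P.1 → PresGroup P := PresentedGroup.of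

/-- `f` decides word-hyperbolicity among (presentations of) automatic groups -/
def DecidesHyp (f : PresData →. Bool) : Prop :=
  ∀ P : PresData, WellFormed P → IsAutomaticWrt (presGen P) →
    ∃ b ∈ f P, (b = true ↔ IsHyperbolicWrt (presGen P))

end Pool.Agent.VHG
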