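import Pool.Agent.VHG.Defs

/-!
# Normal forms for a system of squares (push the vertical letters to the left).

Words are written from right to left: the head of the list is the last letter.
-/

set_option autoImplicit false
set_option linter.unusedSectionVars false

namespace Pool.Agent.VHG

/-- an abstract system of squares `h v = v' h'` -/
structure SqSys (A B : Type) where
  ia : A → A
  ib : B → B
  ia_ia : ∀ a, ia (ia a) = a
  ib_ib : ∀ b, ib (ib b) = b
  ia_ne : ∀ a, ia a ≠ a
  ib_ne : ∀ b, ib b ≠ b
  sq : A → B → Option (B × A)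
  s1 : ∀ {h v v' h'}, sq h v = some (v', h') → sq (ia h) v' = some (v, ia h')
  s2 : ∀ {h v v' h'}, sq h v = some (v', h') → sq h' (ib v) = some (ib v', h)

namespace SqSys

variable {A B : Type} [DecidableEq A] [DecidableEq B] (Q : SqSys A B)

/-- right multiplication of a word by a horizontal letter -/
def mulA (h : A) : List (A ⊕ B) → List (A ⊕ B)
  | [] => [Sum.inl h]
  | Sum.inl k :: w => if k = Q.ia h then w else Sum.inl h :: Sum.inl k :: w
  | Sum.inr v :: w => Sum.inl h :: Sum.inr v :: w

/-- right multiplication of a word by a vertical letter -/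
def mulB : B → List (A ⊕ B) → List (A ⊕ B)
  | v, [] => [Sum.inr v]
  | v, Sum.inr u :: w => if u = Q.ib v then w else Sum.inr v :: Sum.inr u :: w
  | v, Sum.inl h :: w =>
    match Q.sq h v with
    | some (v', h') => Sum.inl h' :: mulB v' w
    | none => Sum.inr v :: Sum.inl h :: w

lemma mulB_some {h : A} {v v' : B} {h' : A} (e : Q.sq h v = some (v', h')) (w : List (A ⊕ B)) :
    Q.mulB v (Sum.inl h :: w) = Sum.inl h' :: Q.mulB v' w := by
  simp [mulB, e]

lemma mulB_none {h : A} {v : B} (e : Q.sq h v = none) (w : List (A ⊕ B)) :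
    Q.mulB v (Sum.inl h :: w) = Sum.inr v :: Sum.inl h :: w := by
  simp [mulB, e]

/-- forbidden pairs: `x` is the letter after `y` -/
def Bad : A ⊕ B → A ⊕ B → Prop
  | Sum.inl h, Sum.inl k => k = Q.ia h
  | Sum.inr v, Sum.inr u => u = Q.ib v
  | Sum.inr v, Sum.inl h => Q.sq h v ≠ none
  | Sum.inl _, Sum.inr _ => False

/-- normal forms -/
def NF (w : List (A ⊕ B)) : Prop := w.IsChain (fun x y => ¬ Q.Bad x y)

lemma nf_nil : Q.NF [] := List.isChain_nil

lemma nf_single (x : A ⊕ B) : Q.NF [x] := List.isChain_singleton _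

lemma nf_cons2 {x y : A ⊕ B} {w : List (A ⊕ B)} :
    Q.NF (x :: y :: w) ↔ ¬ Q.Bad x y ∧ Q.NF (y :: w) := List.isChain_cons_cons

lemma nf_tail {x : A ⊕ B} {w : List (A ⊕ B)} (h : Q.NF (x :: w)) : Q.NF w := by
  cases w with
  | nil => exact Q.nf_nil
  | cons y w => exact (Q.nf_cons2.1 h).2

lemma s12 {h : A} {v v' : B} {h' : A} (e : Q.sq h v = some (v', h')) :
    Q.sq (Q.ia h') (Q.ib v') = some (Q.ib v, Q.ia h) := Q.s2 (Q.s1 e)

/-- the output horizontal letter and the output vertical letter determine the inputs -/
lemma inj_out {h k : A} {v u v' : B} {h' : A} (e : Q.sq h v = some (v', h'))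
    (f : Q.sq k u = some (v', h')) : h = k ∧ v = u := by
  have e1 := Q.s12 e
  rw [Q.s12 f] at e1
  have h2 := Option.some.inj e1
  have h3 := congrArg Prod.fst h2
  have h4 := congrArg Prod.snd h2
  simp only at h3 h4
  refine ⟨?_, ?_⟩
  · rw [← Q.ia_ia h, ← Q.ia_ia k, h4]
  · rw [← Q.ib_ib v, ← Q.ib_ib u, h3]

/-- the lower side and the left side (path `h⁻¹ v'`) : two squares with the same input vertical letter and
same output horizontal letter are equal -/
lemma inj_in {h k : A} {v v' v'' : B} {h' : A} (e : Q.sq h v = some (v', h'))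
    (f : Q.sq k v = some (v'', h')) : h = k := by
  have e1 := Q.s2 e
  rw [Q.s2 f] at e1
  have h2 := Option.some.inj e1
  exact (congrArg Prod.snd h2).symm

/-- no cancellation after pushing -/
lemma head_push {h : A} {v v' : B} {h' : A} {w : List (A ⊕ B)} (hw : Q.NF (Sum.inl h :: w))
    (e : Q.sq h v = some (v', h')) : ∀ w', Q.mulB v' w ≠ Sum.inl (Q.ia h') :: w' := by
  intro w' hh
  cases w with
  | nil => simp [mulB] at hh
  | cons y w =>
    cases y with
    | inl k =>
      have hk : k ≠ Q.ia h := fun h1 => (Q.nf_cons2.1 hw).1 h1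
      rcases hs : Q.sq k v' with _ | ⟨v'', k'⟩
      · rw [Q.mulB_none hs] at hh; simp at hh
      · rw [Q.mulB_some hs] at hh
        have h1 : k' = Q.ia h' := by
          have := (List.cons.inj hh).1
          exact Sum.inl.inj this
        subst h1
        exact hk (Q.inj_in hs (Q.s1 e))
    | inr u =>
      by_cases hu : u = Q.ib v'
      · simp only [mulB, hu, if_true] at hh
        subst hh
        have h2 := (Q.nf_cons2.1 (Q.nf_tail hw)).1
        rw [hu] at h2
        apply h2
        show Q.sq (Q.ia h') (Q.ib v') ≠ none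
        rw [Q.s12 e]; simp
      · simp [mulB, hu] at hh

lemma mulA_cons_of_ne {h : A} {w : List (A ⊕ B)} (hne : ∀ w', w ≠ Sum.inl (Q.ia h) :: w') :
    Q.mulA h w = Sum.inl h :: w := by
  cases w with
  | nil => rfl
  | cons y w =>
    cases y with
    | inl k =>
      have : k ≠ Q.ia h := fun h1 => hne w (by rw [h1])
      simp [mulA, this]
    | inr u => rfl

lemma mulA_cancel (h : A) (w : List (A ⊕ B)) : Q.mulA h (Sum.inl (Q.ia h) :: w) = w := by
  simp [mulA]

lemma nf_mulA {h : A} {w : List (A ⊕ B)} (hw : Q.NF w) : Q.NF (Q.mulA h w) := by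
  cases w with
  | nil => exact Q.nf_single _
  | cons y w =>
    cases y with
    | inl k =>
      by_cases hk : k = Q.ia h
      · simp only [mulA, hk, if_true]; exact Q.nf_tail hw
      · simp only [mulA, hk, if_false]
        exact Q.nf_cons2.2 ⟨hk, hw⟩
    | inr u => exact Q.nf_cons2.2 ⟨fun h => h, hw⟩

lemma mulA_inv {h : A} {w : List (A ⊕ B)} (hw : Q.NF w) : Q.mulA (Q.ia h) (Q.mulA h w) = w := by
  cases w with
  | nil => simp [mulA, Q.ia_ia]
  | cons y w =>
    cases y with
    | inl k =>
      by_cases hk : k = Q.ia h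
      · subst hk
        rw [Q.mulA_cancel]
        apply Q.mulA_cons_of_ne
        intro w' e
        subst e
        exact (Q.nf_cons2.1 hw).1 rfl
      · simp [mulA, hk, Q.ia_ia]
    | inr u => simp [mulA, Q.ia_ia]

lemma nf_mulB {w : List (A ⊕ B)} : ∀ {v : B}, Q.NF w → Q.NF (Q.mulB v w) := by
  induction w with
  | nil => intro v _; exact Q.nf_single _
  | cons y w ih =>
    intro v hw
    cases y with
    | inl h =>
      rcases hs : Q.sq h v with _ | ⟨v', h'⟩
      · rw [Q.mulB_none hs]
        refine Q.nf_cons2.2 ⟨fun hb => hb hs, hw⟩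
      · rw [Q.mulB_some hs]
        have h1 := @ih v' (Q.nf_tail hw)
        have h2 := Q.head_push hw hs
        revert h1 h2
        generalize Q.mulB v' w = z
        intro h1 h2
        cases z with
        | nil => exact Q.nf_single _
        | cons x z =>
          cases x with
          | inl k =>
            refine Q.nf_cons2.2 ⟨fun hb => ?_, h1⟩
            have hb' : k = Q.ia h' := hb
            exact h2 z (by rw [hb'])
          | inr u => exact Q.nf_cons2.2 ⟨fun hb => hb, h1⟩
    | inr u =>
      by_cases hu : u = Q.ib v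
      · simp only [mulB, hu, if_true]; exact Q.nf_tail hw
      · simp only [mulB, hu, if_false]
        exact Q.nf_cons2.2 ⟨hu, hw⟩

lemma mulB_cons {v : B} {w : List (A ⊕ B)} (hw : Q.NF (Sum.inr v :: w)) :
    Q.mulB v w = Sum.inr v :: w := by
  cases w with
  | nil => rfl
  | cons y w =>
    have h1 := (Q.nf_cons2.1 hw).1
    cases y with
    | inl h =>
      have h2 : Q.sq h v = none := by
        by_contra hc
        exact h1 hc
      rw [Q.mulB_none h2]
    | inr u =>
      have hu : u ≠ Q.ib v := fun h => h1 h
      simp [mulB, hu]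

lemma mulA_cons {h : A} {w : List (A ⊕ B)} (hw : Q.NF (Sum.inl h :: w)) :
    Q.mulA h w = Sum.inl h :: w := by
  apply Q.mulA_cons_of_ne
  intro w' e
  subst e
  exact (Q.nf_cons2.1 hw).1 rfl

lemma mulB_inv {w : List (A ⊕ B)} : ∀ {v : B}, Q.NF w → Q.mulB (Q.ib v) (Q.mulB v w) = w := by
  induction w with
  | nil => intro v _; simp [mulB, Q.ib_ib]
  | cons y w ih =>
    intro v hw
    cases y with
    | inl h =>
      rcases hs : Q.sq h v with _ | ⟨v', h'⟩
      · rw [Q.mulB_none hs]; simp [mulB, Q.ib_ib]
      · rw [Q.mulB_some hs, Q.mulB_some (Q.s2 hs), ih (Q.nf_tail hw)]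
    | inr u =>
      by_cases hu : u = Q.ib v
      · subst hu
        have : Q.mulB v (Sum.inr (Q.ib v) :: w) = w := by simp [mulB]
        rw [this]
        exact Q.mulB_cons hw
      · simp [mulB, hu, Q.ib_ib]

lemma mul_rel {h : A} {v v' : B} {h' : A} (e : Q.sq h v = some (v', h')) {w : List (A ⊕ B)}
    (hw : Q.NF w) : Q.mulB v (Q.mulA h w) = Q.mulA h' (Q.mulB v' w) := by
  by_cases hc : ∃ w', w = Sum.inl (Q.ia h) :: w'
  · obtain ⟨w', rfl⟩ := hc
    rw [Q.mulA_cancel, Q.mulB_some (Q.s1 e), Q.mulA_cancel]
  · have h1 : Q.mulA h w = Sum.inl h :: w := Q.mulA_cons_of_ne (fun w' hw' => hc ⟨w', hw'⟩)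
    have h2 : Q.NF (Sum.inl h :: w) := by rw [← h1]; exact Q.nf_mulA hw
    rw [h1, Q.mulB_some e, Q.mulA_cons_of_ne (Q.head_push h2 e)]

/-! ### lengths -/

lemma length_mulA (h : A) (w : List (A ⊕ B)) :
    (Q.mulA h w).length = w.length + 1 ∨ (Q.mulA h w).length + 1 = w.length := by
  cases w with
  | nil => left; rfl
  | cons y w =>
    cases y with
    | inl k =>
      by_cases hk : k = Q.ia h
      · right; simp [mulA, hk]
      · left; simp [mulA, hk]
    | inr u => left; rfl

lemma length_mulB (w : List (A ⊕ B)) : ∀ v : B,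
    (Q.mulB v w).length = w.length + 1 ∨ (Q.mulB v w).length + 1 = w.length := by
  induction w with
  | nil => intro v; left; rfl
  | cons y w ih =>
    intro v
    cases y with
    | inl h =>
      rcases hs : Q.sq h v with _ | ⟨v', h'⟩
      · rw [Q.mulB_none hs]; left; rfl
      · rw [Q.mulB_some hs]
        rcases ih v' with h1 | h1
        · left; simp [h1]
        · right; simp [h1]
    | inr u =>
      by_cases hu : u = Q.ib v
      · right; simp [mulB, hu]
      · left; simp [mulB, hu]

/-- if right multiplication by the inverse of a vertical letter and of a horizontal one both shorten the word,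
then the two letters span a square -/
lemma last_AB {w : List (A ⊕ B)} (hw : Q.NF w) {h : A} {v : B}
    (hh : (Q.mulA (Q.ia h) w).length < w.length) (hv : (Q.mulB (Q.ib v) w).length < w.length) :
    ∃ (w' : List (A ⊕ B)) (u : B) (h' : A), w = Sum.inl h :: w' ∧ Q.sq h' v = some (u, h) ∧
      (Q.mulB (Q.ib u) w').length < w'.length := by
  cases w with
  | nil => simp at hh
  | cons y w =>
    cases y with
    | inr u => simp [mulA] at hh
    | inl k =>
      have hk : k = h := by
        by_contra hne
        have : k ≠ Q.ia (Q.ia h) := by rw [Q.ia_ia]; exact hne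
        simp [mulA, this] at hh
      subst hk
      rcases hs : Q.sq k (Q.ib v) with _ | ⟨v', h'⟩
      · rw [Q.mulB_none hs] at hv; simp at hv
      · rw [Q.mulB_some hs] at hv
        refine ⟨w, Q.ib v', h', rfl, ?_, ?_⟩
        · have := Q.s2 hs
          rwa [Q.ib_ib] at this
        · rw [Q.ib_ib]
          simpa using hv

/-- at most one horizontal last letter -/
lemma last_AA {w : List (A ⊕ B)} {h k : A}
    (hh : (Q.mulA (Q.ia h) w).length < w.length) (hk : (Q.mulA (Q.ia k) w).length < w.length) :
    h = k := by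
  cases w with
  | nil => simp at hh
  | cons y w =>
    cases y with
    | inr u => simp [mulA] at hh
    | inl l =>
      have h1 : l = h := by
        by_contra hne
        have : l ≠ Q.ia (Q.ia h) := by rw [Q.ia_ia]; exact hne
        simp [mulA, this] at hh
      have h2 : l = k := by
        by_contra hne
        have : l ≠ Q.ia (Q.ia k) := by rw [Q.ia_ia]; exact hne
        simp [mulA, this] at hk
      rw [← h1, ← h2]

/-- at most one vertical last letter -/
lemma last_BB {w : List (A ⊕ B)} : ∀ {u v : B},
    (Q.mulB (Q.ib u) w).length < w.length → (Q.mulB (Q.ib v) w).length < w.length → u = v := by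
  induction w with
  | nil => intro u v h; simp at h
  | cons y w ih =>
    intro u v hu hv
    cases y with
    | inr x =>
      have h1 : x = u := by
        by_contra hne
        have : x ≠ Q.ib (Q.ib u) := by rw [Q.ib_ib]; exact hne
        simp [mulB, this] at hu
      have h2 : x = v := by
        by_contra hne
        have : x ≠ Q.ib (Q.ib v) := by rw [Q.ib_ib]; exact hne
        simp [mulB, this] at hv
      rw [← h1, ← h2]
    | inl h =>
      rcases hs : Q.sq h (Q.ib u) with _ | ⟨u', h'⟩
      · rw [Q.mulB_none hs] at hu; simp at hu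
      · rcases ht : Q.sq h (Q.ib v) with _ | ⟨v', h''⟩
        · rw [Q.mulB_none ht] at hv; simp at hv
        · rw [Q.mulB_some hs] at hu
          rw [Q.mulB_some ht] at hv
          simp only [List.length_cons, add_lt_add_iff_right] at hu hv
          have e : Q.ib u' = Q.ib v' := by
            apply ih
            · rw [Q.ib_ib]; exact hu
            · rw [Q.ib_ib]; exact hv
          have e' : u' = v' := by rw [← Q.ib_ib u', e, Q.ib_ib]
          subst e'
          have f1 := Q.s1 hs
          have f2 := Q.s1 ht
          rw [f1] at f2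
          have f3 := congrArg Prod.fst (Option.some.inj f2)
          simp only at f3
          rw [← Q.ib_ib u, f3, Q.ib_ib]

end SqSys

end Pool.Agent.VHG
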