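import Pool.Agent.VHG.Grid
import Pool.Agent.VHG.Geom

/-!
# Bounded folded patches give thin triangles
-/

set_option autoImplicit false
set_option linter.unusedSectionVars false

namespace Pool.Agent.VHG

section

open Classical

variable {T V H : Type} (S : Tiles T V H) (hS : S.Det)

/-- the generators of the group of a tile set -/
def Tiles.gen : V ⊕ H → Grp S := fun a => PresentedGroup.of a

/-- signed generator to letter -/
def toL : (V ⊕ H) × Bool → Ltr V H
  | (Sum.inl v, b) => Sum.inr (v, b)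
  | (Sum.inr h, b) => Sum.inl (h, b)

/-- letter to signed generator -/
def ofL : Ltr V H → (V ⊕ H) × Bool
  | Sum.inr (v, b) => (Sum.inl v, b)
  | Sum.inl (h, b) => (Sum.inr h, b)

@[simp] lemma toL_ofL (x : Ltr V H) : toL (ofL x) = x := by
  rcases x with ⟨x, b⟩ | ⟨x, b⟩ <;> rfl

@[simp] lemma ofL_toL (x : (V ⊕ H) × Bool) : ofL (toL x) = x := by
  rcases x with ⟨x | x, b⟩ <;> rfl

lemma wval_gen (w : List ((V ⊕ H) × Bool)) : wval S.gen w = S.pv (w.map toL) := by
  induction w with
  | nil => rfl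
  | cons x w ih =>
    have h1 : wval S.gen (x :: w) = (if x.2 then S.gen x.1 else (S.gen x.1)⁻¹) * wval S.gen w := by
      simp [wval]
    rw [h1, ih, List.map_cons, pv_cons]
    congr 1
    rcases x with ⟨x | x, b⟩ <;> cases b <;> rfl

lemma wdist_eq (g h : Grp S) : wdist S.gen g h = S.len hS (g⁻¹ * h) := by
  unfold wdist
  apply le_antisymm
  · obtain ⟨w, hw, hl⟩ := exists_word S hS (g⁻¹ * h)
    apply Nat.sInf_le
    refine ⟨w.map ofL, by simpa using hl, ?_⟩
    rw [wval_gen, List.map_map]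
    have : (toL ∘ ofL : Ltr V H → Ltr V H) = id := by funext x; simp
    rw [this, List.map_id, hw]; group
  · apply le_csInf
    · obtain ⟨w, hw, hl⟩ := exists_word S hS (g⁻¹ * h)
      refine ⟨_, w.map ofL, rfl, ?_⟩
      rw [wval_gen, List.map_map]
      have : (toL ∘ ofL : Ltr V H → Ltr V H) = id := by funext x; simp
      rw [this, List.map_id, hw]; group
    · rintro n ⟨w, rfl, hw⟩
      have e : g⁻¹ * h = wval S.gen w := by rw [← hw]; group
      rw [e, wval_gen]
      simpa using len_pv_le S hS (w.map toL)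

lemma exists_prefix {g : Grp S} {k : ℕ} (hk : k ≤ S.len hS g) :
    ∃ y, S.Pre hS y g ∧ S.len hS y = k := by
  obtain ⟨w, rfl, hl⟩ := exists_word S hS g
  have e : S.pv w = S.pv (w.take k) * S.pv (w.drop k) := by
    rw [← pv_append, List.take_append_drop]
  have h1 := len_pv_le S hS (w.take k)
  have h2 := len_pv_le S hS (w.drop k)
  have h3 := len_mul_le S hS (S.pv (w.take k)) (S.pv (w.drop k))
  rw [← e] at h3
  have l1 : (w.take k).length = k := by simp; omega
  have l2 : (w.drop k).length = w.length - k := by simp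
  refine ⟨S.pv (w.take k), ?_, by omega⟩
  unfold Tiles.Pre
  have e2 : (S.pv (w.take k))⁻¹ * S.pv w = S.pv (w.drop k) := by rw [e]; group
  rw [e2]
  omega

/-- no folded patch of size at least `N` -/
def Tiles.Bdd (N : ℕ) : Prop := ∀ n, N ≤ n → ¬ ∃ F ex ey, IsFoldedPatch S n F ex ey

lemma bigon_le {N : ℕ} (hN : S.Bdd N) (h0 : 0 < N) {p q g : Grp S} (hp : S.Pre hS p g)
    (hq : S.Pre hS q g) (l : S.len hS p = S.len hS q) : S.len hS (p⁻¹ * q) ≤ 2 * N := by
  obtain ⟨e, h1, h2⟩ := bigon S hS hp hq l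
  by_contra hc
  exact hN e (by omega) (h2 (by omega))

lemma corner {N : ℕ} (hN : S.Bdd N) (h0 : 0 < N) {u w m p q : Grp S} (mu : S.Pre hS m u)
    (mw : S.Pre hS m w) (pu : S.Pre hS p u) (qw : S.Pre hS q w) (l : S.len hS p = S.len hS q)
    (lm : S.len hS p ≤ S.len hS m) : S.len hS (p⁻¹ * q) ≤ 4 * N := by
  obtain ⟨y, hy, ly⟩ := exists_prefix S hS lm
  have h1 := bigon_le S hS hN h0 pu (pre_trans S hS hy mu) ly.symm
  have h2 := bigon_le S hS hN h0 (pre_trans S hS hy mw) qw (ly.trans l)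
  have h3 := len_mul_le S hS (p⁻¹ * y) (y⁻¹ * q)
  have e : p⁻¹ * y * (y⁻¹ * q) = p⁻¹ * q := by group
  rw [e] at h3
  omega

include hS in
/-- bounded folded patches give thin triangles -/
theorem thin_of_bdd {N : ℕ} (hN : S.Bdd N) (h0 : 0 < N) : ThinTriangles S.gen (4 * N) := by
  intro a b c l m n p q r hp hq hr i hi
  have dp := hp.dist
  have dq := hq.dist
  have dr := hr.dist
  simp only [wdist_eq S hS] at dp dq dr ⊢
  have lab : S.len hS (a⁻¹ * b) = l := by
    have := dp 0 l (by omega) le_rfl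
    rw [hp.start, hp.stop] at this; simpa using this
  have lbc : S.len hS (b⁻¹ * c) = m := by
    have := dq 0 m (by omega) le_rfl
    rw [hq.start, hq.stop] at this; simpa using this
  have lca : S.len hS (c⁻¹ * a) = n := by
    have := dr 0 n (by omega) le_rfl
    rw [hr.start, hr.stop] at this; simpa using this
  obtain ⟨y, hy1, hy2, hy3⟩ := exists_median S hS (a⁻¹ * b) (a⁻¹ * c)
  have e1 : (a⁻¹ * b)⁻¹ * (a⁻¹ * c) = b⁻¹ * c := by group
  rw [e1] at hy3
  have l1 : S.len hS (a⁻¹ * p i) = i := by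
    have := dp 0 i (by omega) hi
    rw [hp.start] at this; simpa using this
  have l2 : S.len hS ((p i)⁻¹ * b) = l - i := by
    have := dp i l hi le_rfl
    rw [hp.stop] at this; simpa using this
  by_cases his : i ≤ S.len hS y
  · right
    have hin : i ≤ n := by
      unfold Tiles.Pre at hy2
      rw [len_inv_mul_comm S hS a c, lca] at hy2
      omega
    refine ⟨n - i, by omega, ?_⟩
    have l3 : S.len hS ((r (n - i))⁻¹ * a) = i := by
      have := dr (n - i) n (by omega) le_rfl
      rw [hr.stop] at this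
      omega
    have l4 : S.len hS (c⁻¹ * r (n - i)) = n - i := by
      have := dr 0 (n - i) (by omega) (by omega)
      rw [hr.start] at this
      omega
    have p1 : S.Pre hS (a⁻¹ * p i) (a⁻¹ * b) := by
      unfold Tiles.Pre
      have e2 : (a⁻¹ * p i)⁻¹ * (a⁻¹ * b) = (p i)⁻¹ * b := by group
      rw [e2]; omega
    have p2 : S.Pre hS (a⁻¹ * r (n - i)) (a⁻¹ * c) := by
      unfold Tiles.Pre
      have e2 : (a⁻¹ * r (n - i))⁻¹ * (a⁻¹ * c) = (r (n - i))⁻¹ * c := by group
      rw [e2, len_inv_mul_comm S hS a (r (n - i)), len_inv_mul_comm S hS (r (n - i)) c,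
        len_inv_mul_comm S hS a c]
      omega
    have := corner S hS hN h0 hy1 hy2 p1 p2
      (by rw [l1, len_inv_mul_comm S hS a (r (n - i)), l3]) (by omega)
    have e3 : (a⁻¹ * p i)⁻¹ * (a⁻¹ * r (n - i)) = (p i)⁻¹ * r (n - i) := by group
    rw [e3] at this
    exact this
  · left
    -- base point `b`
    have e2 : y⁻¹ * (a⁻¹ * b) = (a * y)⁻¹ * b := by group
    have e3 : y⁻¹ * (a⁻¹ * c) = (a * y)⁻¹ * c := by group
    unfold Tiles.Pre at hy1 hy2
    rw [e2] at hy1 hy3
    rw [e3] at hy2 hy3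
    have lbM : S.len hS (b⁻¹ * (a * y)) = S.len hS ((a * y)⁻¹ * b) := len_inv_mul_comm S hS _ _
    have m1 : S.Pre hS (b⁻¹ * (a * y)) (b⁻¹ * a) := by
      unfold Tiles.Pre
      have e4 : (b⁻¹ * (a * y))⁻¹ * (b⁻¹ * a) = y⁻¹ := by group
      rw [e4, len_inv, len_inv_mul_comm S hS b a]
      omega
    have m2 : S.Pre hS (b⁻¹ * (a * y)) (b⁻¹ * c) := by
      unfold Tiles.Pre
      have e4 : (b⁻¹ * (a * y))⁻¹ * (b⁻¹ * c) = (a * y)⁻¹ * c := by group
      rw [e4]
      omega
    have hk : l - i ≤ m := by omega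
    refine ⟨l - i, hk, ?_⟩
    have l3 : S.len hS (b⁻¹ * q (l - i)) = l - i := by
      have := dq 0 (l - i) (by omega) hk
      rw [hq.start] at this
      omega
    have l4 : S.len hS ((q (l - i))⁻¹ * c) = m - (l - i) := by
      have := dq (l - i) m (by omega) le_rfl
      rw [hq.stop] at this
      omega
    have p1 : S.Pre hS (b⁻¹ * p i) (b⁻¹ * a) := by
      unfold Tiles.Pre
      have e4 : (b⁻¹ * p i)⁻¹ * (b⁻¹ * a) = (p i)⁻¹ * a := by group
      rw [e4, len_inv_mul_comm S hS b (p i), len_inv_mul_comm S hS (p i) a,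
        len_inv_mul_comm S hS b a]
      omega
    have p2 : S.Pre hS (b⁻¹ * q (l - i)) (b⁻¹ * c) := by
      unfold Tiles.Pre
      have e4 : (b⁻¹ * q (l - i))⁻¹ * (b⁻¹ * c) = (q (l - i))⁻¹ * c := by group
      rw [e4]
      omega
    have := corner S hS hN h0 m1 m2 p1 p2
      (by rw [len_inv_mul_comm S hS b (p i), l2, l3])
      (by rw [len_inv_mul_comm S hS b (p i)]; omega)
    have e5 : (b⁻¹ * p i)⁻¹ * (b⁻¹ * q (l - i)) = (p i)⁻¹ * q (l - i) := by group
    rw [e5] at this
    exact this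

include hS in
theorem hyperbolic_of_bdd {N : ℕ} (hN : S.Bdd N) : IsHyperbolicWrt S.gen :=
  ⟨4 * (N + 1), thin_of_bdd S hS (N := N + 1) (fun n hn => hN n (by omega)) (by omega)⟩

end

end Pool.Agent.VHG
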